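import Mathlib

/-! Koszul cycles of the ideal `(a, b, c)^2`: definitions and task statements. -/

set_option autoImplicit false

namespace H539R3.SA

open MvPolynomial

/-- polynomial ring in `a = X 0`, `b = X 1`, `c = X 2`, `x = X 3` -/
abbrev R : Type := MvPolynomial (Fin 4) ℚ

/-- first factor of the `j`-th quadratic monomial -/
def fp : Fin 6 → Fin 3 := ![0, 1, 2, 0, 1, 2]

/-- second factor of the `j`-th quadratic monomial -/
def fq : Fin 6 → Fin 3 := ![0, 1, 2, 1, 2, 0]

/-- the quadratic monomials `a^2, b^2, c^2, ab, bc, ca` -/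
noncomputable def quad (j : Fin 6) : R := X (fp j).castSucc * X (fq j).castSucc

/-- `κ w = ∑ j, w_j f_j` -/
noncomputable def kap (w : Fin 6 → R) : R := ∑ j, w j * quad j

/-- Koszul boundaries -/
noncomputable def Bd : Submodule R (Fin 6 → R) :=
  Submodule.span R (Set.range fun p : Fin 6 × Fin 6 =>
    (Pi.single p.2 (quad p.1) : Fin 6 → R) - Pi.single p.1 (quad p.2))

/-- the cycle `a e_{bc} + b e_{ca} - 2 c e_{ab}` -/
noncomputable def rho : Fin 6 → R := ![0, 0, 0, -(2 * X 2), X 0, X 1]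

/-- weights of `a, b, c, x` -/
def wts : Fin 4 → ℕ := ![2, 2, 2, 4]

def TaskK1 : Prop := ∀ w w' : Fin 6 → R, kap w • w' - kap w' • w ∈ Bd

def TaskK2 : Prop := ∀ (n : ℕ), 3 ≤ n → ∀ (f : R), IsWeightedHomogeneous wts f n →
    (pderiv 3 f) • rho ∈ Bd → ∃ c : Fin 6 → R, kap c = f

end H539R3.SA
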