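import Pool.Agent.H539R3.SA.FCA
import Pool.Agent.H539R3.SA.KDefs

/-! The differential, by recursion on the degree. -/

set_option autoImplicit false

namespace H539R3.SA

open MvPolynomial

/-- generators -/
inductive G : Type
  | e (t : Fin 3)
  | u (j : Fin 6)
  | x
  | y (k j : ℕ)

/-- degrees of the generators -/
def dg : G → ℕ
  | .e _ => 2
  | .u _ => 3
  | .x => 4
  | .y k _ => 2 * k + 5

theorem two_le_dg (i : G) : 2 ≤ dg i := by
  cases i <;> simp [dg]

instance : Countable G := by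
  have : Function.Injective (fun i : G => match i with
    | .e t => (Sum.inl (Sum.inl (Sum.inl t)) : ((Fin 3 ⊕ Fin 6) ⊕ Unit) ⊕ (ℕ × ℕ))
    | .u j => Sum.inl (Sum.inl (Sum.inr j))
    | .x => Sum.inl (Sum.inr ())
    | .y k j => Sum.inr (k, j)) := by
    intro i j h
    cases i <;> cases j <;> simp_all
  exact this.countable

/-- the values of the differential on the first generators -/
noncomputable def D0 : ∀ i : G, gr dg (dg i + 1)
  | .e _ => 0
  | .u j => ⟨gen dg (.e (fp j)) * gen dg (.e (fq j)),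
      mul_mem_gr dg (m := 2) (n := 2) (gen_mem dg (.e (fp j))) (gen_mem dg (.e (fq j)))⟩
  | .x => ⟨gen dg (.e 0) * gen dg (.u 4) + gen dg (.e 1) * gen dg (.u 5)
      - (2 : ℚ) • (gen dg (.e 2) * gen dg (.u 3)),
      sub_mem (add_mem (mul_mem_gr dg (m := 2) (n := 3) (gen_mem dg (.e 0)) (gen_mem dg (.u 4)))
        (mul_mem_gr dg (m := 2) (n := 3) (gen_mem dg (.e 1)) (gen_mem dg (.u 5))))
        (Submodule.smul_mem _ _
          (mul_mem_gr dg (m := 2) (n := 3) (gen_mem dg (.e 2)) (gen_mem dg (.u 3))))⟩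
  | .y _ _ => 0

theorem exists_enum (D : ∀ i : G, gr dg (dg i + 1)) (n : ℕ) : ∃ en : ℕ → gr dg n,
    (∀ j, der dg D (en j) = 0) ∧ ∀ z ∈ gr dg n, der dg D z = 0 → ∃ j, (en j : F dg) = z := by
  have hc : Countable (F dg) := countable_F dg
  have h1 : Countable {z : gr dg n // der dg D (z : F dg) = 0} := by
    have hi : Function.Injective (fun z : {z : gr dg n // der dg D (z : F dg) = 0} => ((z : gr dg n) : F dg)) :=
      fun a b h => Subtype.ext (Subtype.ext h)
    exact hi.countable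
  have h2 : Nonempty {z : gr dg n // der dg D (z : F dg) = 0} := ⟨⟨0, by simp⟩⟩
  obtain ⟨f, hf⟩ := exists_surjective_nat {z : gr dg n // der dg D (z : F dg) = 0}
  refine ⟨fun j => (f j : gr dg n), fun j => (f j).2, fun z hz h => ?_⟩
  obtain ⟨j, hj⟩ := hf ⟨⟨z, hz⟩, h⟩
  refine ⟨j, ?_⟩
  show (((f j : gr dg n)) : F dg) = z
  rw [hj]

/-- enumeration of the cocycles of degree `n` -/
noncomputable def en (D : ∀ i : G, gr dg (dg i + 1)) (n : ℕ) : ℕ → gr dg n :=
  (exists_enum D n).choose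

theorem en_coc (D : ∀ i : G, gr dg (dg i + 1)) (n j : ℕ) : der dg D (en D n j) = 0 :=
  (exists_enum D n).choose_spec.1 j

theorem en_surj (D : ∀ i : G, gr dg (dg i + 1)) (n : ℕ) (z : F dg) (hz : z ∈ gr dg n)
    (h : der dg D z = 0) : ∃ j, (en D n j : F dg) = z :=
  (exists_enum D n).choose_spec.2 z hz h

/-- choice between two elements -/
def sel {n : ℕ} (c : Prop) [Decidable c] (a b : gr dg n) : gr dg n := if c then a else b

theorem sel_pos {n : ℕ} (c : Prop) [Decidable c] (a b : gr dg n) (h : c) : sel c a b = a := if_pos h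
theorem sel_neg {n : ℕ} (c : Prop) [Decidable c] (a b : gr dg n) (h : ¬ c) : sel c a b = b := if_neg h

/-- stages -/
noncomputable def Ds : ℕ → ∀ i : G, gr dg (dg i + 1)
  | 0 => D0
  | k + 1 => fun i => match i with
    | .e t => D0 (.e t)
    | .u j => D0 (.u j)
    | .x => D0 .x
    | .y k' j => sel (k' = k) (en (Ds k) (2 * k' + 5 + 1) j) (Ds k (.y k' j))

/-- the differential on generators -/
noncomputable def Df : ∀ i : G, gr dg (dg i + 1)
  | .e t => D0 (.e t)
  | .u j => D0 (.u j)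
  | .x => D0 .x
  | .y k j => en (Ds k) (2 * k + 5 + 1) j

theorem Ds_lt (m k j : ℕ) (h : k < m) : Ds m (.y k j) = Df (.y k j) := by
  induction m with
  | zero => omega
  | succ m ih =>
    by_cases hk : k = m
    · subst hk
      exact sel_pos _ _ _ rfl
    · exact (sel_neg _ _ _ hk).trans (ih (by omega))

theorem Ds_e (m : ℕ) (t : Fin 3) : Ds m (.e t) = Df (.e t) := by cases m <;> rfl
theorem Ds_u (m : ℕ) (t : Fin 6) : Ds m (.u t) = Df (.u t) := by cases m <;> rfl
theorem Ds_x (m : ℕ) : Ds m .x = Df .x := by cases m <;> rfl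

theorem wt_ne_one (l : List G) : wt dg l ≠ 1 := by
  cases l with
  | nil => simp
  | cons i l =>
    rw [wt_cons]
    have := two_le_dg i
    omega

theorem wt_mem (l : List G) (i : G) (h : i ∈ l) : ∃ r, wt dg l = dg i + r ∧ r ≠ 1 := by
  obtain ⟨s, t, rfl⟩ := List.append_of_mem h
  refine ⟨wt dg (s ++ t), ?_, wt_ne_one _⟩
  rw [wt_append, wt_append, wt_cons]
  ring

/-- a generator in a word of weight `2k+6` is of lower level -/
theorem level (k : ℕ) (l : List G) (hl : wt dg l = 2 * k + 5 + 1) (k' j : ℕ) (h : G.y k' j ∈ l) :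
    k' < k := by
  obtain ⟨r, hr, hr1⟩ := wt_mem l _ h
  have : dg (G.y k' j) = 2 * k' + 5 := rfl
  omega

theorem Df_eq_Ds (k : ℕ) (l : List G) (hl : wt dg l = 2 * k + 5 + 1) (i : G) (h : i ∈ l) :
    Df i = Ds k i := by
  cases i with
  | e t => exact (Ds_e k t).symm
  | u t => exact (Ds_u k t).symm
  | x => exact (Ds_x k).symm
  | y k' j => exact (Ds_lt k k' j (level k l hl k' j h)).symm

theorem der_Df_Ds (k : ℕ) (z : F dg) (hz : z ∈ gr dg (2 * k + 5 + 1)) :
    der dg Df z = der dg (Ds k) z :=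
  der_congr dg Df (Ds k) _ (fun l hl i hi => Df_eq_Ds k l hl i hi) hz

theorem Df_y_coc (k j : ℕ) : der dg Df (Df (.y k j)) = 0 := by
  rw [der_Df_Ds k _ (Df (.y k j)).2]
  exact en_coc (Ds k) _ j

theorem Df_surj (k : ℕ) (z : F dg) (hz : z ∈ gr dg (2 * k + 5 + 1)) (h : der dg Df z = 0) :
    ∃ j, (Df (.y k j) : F dg) = z := by
  rw [der_Df_Ds k z hz] at h
  exact en_surj (Ds k) _ z hz h

theorem Df_e (t : Fin 3) : (Df (.e t) : F dg) = 0 := rfl
theorem Df_u (j : Fin 6) : (Df (.u j) : F dg) = gen dg (.e (fp j)) * gen dg (.e (fq j)) := rfl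
theorem Df_x : (Df .x : F dg) = gen dg (.e 0) * gen dg (.u 4) + gen dg (.e 1) * gen dg (.u 5)
      - (2 : ℚ) • (gen dg (.e 2) * gen dg (.u 3)) := rfl

theorem ee_comm (s t : Fin 3) : gen dg (.e s) * gen dg (.e t) = gen dg (.e t) * gen dg (.e s) := by
  have := gen_comm dg (.e s) (.e t)
  have h : (-1 : ℚ) ^ (dg (.e s) * dg (.e t)) = 1 := by
    show (-1 : ℚ) ^ (2 * 2) = 1
    norm_num
  rw [h, one_smul] at this
  exact this

theorem der_e (t : Fin 3) : der dg Df (gen dg (.e t)) = 0 := by rw [der_gen]; rfl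

theorem der_e_mul (t : Fin 3) (b : F dg) : der dg Df (gen dg (.e t) * b) = gen dg (.e t) * der dg Df b := by
  rw [der_mul dg Df (gen_mem dg (.e t)), der_e, zero_mul, zero_add]
  have h : (-1 : ℚ) ^ (dg (.e t)) = 1 := by
    show (-1 : ℚ) ^ 2 = 1
    norm_num
  rw [h, one_smul]

theorem Df_coc (i : G) : der dg Df (Df i) = 0 := by
  cases i with
  | e t => rw [Df_e, map_zero]
  | u j => rw [Df_u, der_e_mul, der_e, mul_zero]
  | x =>
    rw [Df_x, map_sub, map_add, map_smul, der_e_mul, der_e_mul, der_e_mul, der_gen, der_gen, der_gen,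
      Df_u, Df_u, Df_u]
    have h1 : fp 4 = 1 := rfl
    have h2 : fq 4 = 2 := rfl
    have h3 : fp 5 = 2 := rfl
    have h4 : fq 5 = 0 := rfl
    have h5 : fp 3 = 0 := rfl
    have h6 : fq 3 = 1 := rfl
    rw [h1, h2, h3, h4, h5, h6]
    have a1 : gen dg (.e 1) * (gen dg (.e 2) * gen dg (.e 0)) =
        gen dg (.e 0) * (gen dg (.e 1) * gen dg (.e 2)) := by
      rw [ee_comm 2 0, ← mul_assoc, ee_comm 1 0, mul_assoc]
    have a2 : gen dg (.e 2) * (gen dg (.e 0) * gen dg (.e 1)) =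
        gen dg (.e 0) * (gen dg (.e 1) * gen dg (.e 2)) := by
      rw [← mul_assoc, ee_comm 2 0, mul_assoc, ee_comm 2 1]
    rw [a1, a2, two_smul]
    abel
  | y k j => exact Df_y_coc k j

end H539R3.SA
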