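import Mathlib

/-! The free commutative graded algebra on generators of given degrees. -/

set_option autoImplicit false

namespace H539R3.SA

open scoped DirectSum

variable {I : Type} (deg : I → ℕ)

/-- graded commutativity of the generators -/
inductive Rel : FreeAlgebra ℚ I → FreeAlgebra ℚ I → Prop
  | comm (i j : I) : Rel (FreeAlgebra.ι ℚ i * FreeAlgebra.ι ℚ j)
      ((-1 : ℚ) ^ (deg i * deg j) • (FreeAlgebra.ι ℚ j * FreeAlgebra.ι ℚ i))

/-- the free commutative graded algebra -/
def F : Type := RingQuot (Rel deg)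

noncomputable instance : Ring (F deg) := inferInstanceAs (Ring (RingQuot (Rel deg)))

noncomputable instance : Algebra ℚ (F deg) := inferInstanceAs (Algebra ℚ (RingQuot (Rel deg)))

/-- generators -/
noncomputable def gen (i : I) : F deg := (RingQuot.mkAlgHom ℚ (Rel deg) (FreeAlgebra.ι ℚ i) : RingQuot (Rel deg))

theorem gen_comm (i j : I) :
    gen deg i * gen deg j = (-1 : ℚ) ^ (deg i * deg j) • (gen deg j * gen deg i) := by
  have h := RingQuot.mkAlgHom_rel ℚ (Rel.comm (deg := deg) i j)
  rw [map_mul, map_smul, map_mul] at h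
  exact h

section lift
variable {B : Type} [Ring B] [Algebra ℚ B]

/-- universal property -/
noncomputable def lift (w : I → B)
    (hw : ∀ i j, w i * w j = (-1 : ℚ) ^ (deg i * deg j) • (w j * w i)) : F deg →ₐ[ℚ] B :=
  RingQuot.liftAlgHom ℚ ⟨FreeAlgebra.lift ℚ w, by
    rintro _ _ ⟨i, j⟩
    rw [map_mul, map_smul, map_mul, FreeAlgebra.lift_ι_apply, FreeAlgebra.lift_ι_apply]
    exact hw i j⟩

theorem lift_gen (w : I → B)
    (hw : ∀ i j, w i * w j = (-1 : ℚ) ^ (deg i * deg j) • (w j * w i)) (i : I) :
    lift deg w hw (gen deg i) = w i := by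
  exact (RingQuot.liftAlgHom_mkAlgHom_apply ℚ (FreeAlgebra.lift ℚ w) _ _).trans
    (FreeAlgebra.lift_ι_apply _ _)

theorem hom_ext (f g : F deg →ₐ[ℚ] B) (h : ∀ i, f (gen deg i) = g (gen deg i)) : f = g := by
  apply RingQuot.ringQuot_ext'
  apply FreeAlgebra.hom_ext
  funext i
  exact h i

end lift

theorem induct {C : F deg → Prop} (h1 : ∀ r : ℚ, C (algebraMap ℚ (F deg) r))
    (hg : ∀ i, C (gen deg i)) (hm : ∀ a b, C a → C b → C (a * b))
    (ha : ∀ a b, C a → C b → C (a + b)) (a : F deg) : C a := by
  obtain ⟨a, rfl⟩ := RingQuot.mkAlgHom_surjective ℚ (Rel deg) a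
  induction a using FreeAlgebra.induction with
  | grade0 r => rw [AlgHom.commutes]; exact h1 r
  | grade1 i => exact hg i
  | mul a b ha' hb' => rw [map_mul]; exact hm _ _ ha' hb'
  | add a b ha' hb' => rw [map_add]; exact ha _ _ ha' hb'

/-- weight of a word -/
def wt (l : List I) : ℕ := (l.map deg).sum

/-- monomial of a word -/
noncomputable def mon (l : List I) : F deg := (l.map (gen deg)).prod

@[simp] theorem wt_nil : wt deg [] = 0 := rfl
@[simp] theorem wt_cons (i : I) (l : List I) : wt deg (i :: l) = deg i + wt deg l := by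
  simp [wt]
theorem wt_append (l l' : List I) : wt deg (l ++ l') = wt deg l + wt deg l' := by
  simp [wt]
@[simp] theorem mon_nil : mon deg [] = 1 := rfl
@[simp] theorem mon_cons (i : I) (l : List I) : mon deg (i :: l) = gen deg i * mon deg l := by
  simp [mon]
theorem mon_append (l l' : List I) : mon deg (l ++ l') = mon deg l * mon deg l' := by
  simp [mon]

/-- homogeneous parts -/
noncomputable def gr (n : ℕ) : Submodule ℚ (F deg) :=
  Submodule.span ℚ {z | ∃ l, wt deg l = n ∧ z = mon deg l}

theorem mon_mem (l : List I) : mon deg l ∈ gr deg (wt deg l) :=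
  Submodule.subset_span ⟨l, rfl, rfl⟩

theorem gen_mem (i : I) : gen deg i ∈ gr deg (deg i) := by
  have := mon_mem deg [i]
  simpa using this

theorem one_mem_gr : (1 : F deg) ∈ gr deg 0 := mon_mem deg []

theorem mul_mem_gr {m n : ℕ} {a b : F deg} (ha : a ∈ gr deg m) (hb : b ∈ gr deg n) :
    a * b ∈ gr deg (m + n) := by
  induction ha using Submodule.span_induction with
  | mem x hx =>
    obtain ⟨l, hl, rfl⟩ := hx
    induction hb using Submodule.span_induction with
    | mem y hy =>
      obtain ⟨l', hl', rfl⟩ := hy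
      rw [← mon_append]
      have := mon_mem deg (l ++ l')
      rwa [wt_append, hl, hl'] at this
    | zero => rw [mul_zero]; exact zero_mem _
    | add y z _ _ hy hz => rw [mul_add]; exact add_mem hy hz
    | smul r y _ hy => rw [mul_smul_comm]; exact Submodule.smul_mem _ _ hy
  | zero => rw [zero_mul]; exact zero_mem _
  | add y z _ _ hy hz => rw [add_mul]; exact add_mem hy hz
  | smul r y _ hy => rw [smul_mul_assoc]; exact Submodule.smul_mem _ _ hy

instance : SetLike.GradedMonoid (gr deg) where
  one_mem := one_mem_gr deg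
  mul_mem := fun _ _ _ _ ha hb => mul_mem_gr deg ha hb

theorem of_gen_mul (i j : I) (h : gen deg i * gen deg j ∈ gr deg (deg i + deg j)) :
    DirectSum.of (fun n => gr deg n) (deg i) ⟨gen deg i, gen_mem deg i⟩ *
      DirectSum.of (fun n => gr deg n) (deg j) ⟨gen deg j, gen_mem deg j⟩ =
      DirectSum.of (fun n => gr deg n) (deg i + deg j) ⟨gen deg i * gen deg j, h⟩ := by
  rw [DirectSum.of_mul_of]
  rfl

/-- map to the direct sum -/
noncomputable def dec : F deg →ₐ[ℚ] ⨁ n, gr deg n :=
  lift deg (fun i => DirectSum.of (fun n => gr deg n) (deg i) ⟨gen deg i, gen_mem deg i⟩) (by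
    intro i j
    have hij := mul_mem_gr deg (gen_mem deg i) (gen_mem deg j)
    have hji := mul_mem_gr deg (gen_mem deg j) (gen_mem deg i)
    have hji' : gen deg j * gen deg i ∈ gr deg (deg i + deg j) := by rw [add_comm]; exact hji
    rw [of_gen_mul deg i j hij, of_gen_mul deg j i hji]
    have e : DirectSum.of (fun n => gr deg n) (deg j + deg i) ⟨gen deg j * gen deg i, hji⟩ =
        DirectSum.of (fun n => gr deg n) (deg i + deg j) ⟨gen deg j * gen deg i, hji'⟩ :=
      DirectSum.of_eq_of_gradedMonoid_eq (Sigma.subtype_ext (add_comm _ _) rfl)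
    rw [e, ← DirectSum.lof_eq_of ℚ, ← DirectSum.lof_eq_of ℚ, ← map_smul]
    congr 1
    exact Subtype.ext (gen_comm deg i j))

theorem dec_mon (l : List I) :
    dec deg (mon deg l) = DirectSum.of (fun n => gr deg n) (wt deg l) ⟨mon deg l, mon_mem deg l⟩ := by
  induction l with
  | nil => exact map_one (dec deg)
  | cons i l ih =>
    have h1 : dec deg (mon deg (i :: l)) = dec deg (gen deg i) * dec deg (mon deg l) := by
      rw [mon_cons, map_mul]
    rw [h1, ih]
    unfold dec
    rw [lift_gen, DirectSum.of_mul_of]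
    exact DirectSum.of_eq_of_gradedMonoid_eq (Sigma.subtype_ext (wt_cons deg i l).symm (mon_cons deg i l).symm)

noncomputable instance : GradedAlgebra (gr deg) :=
  GradedAlgebra.ofAlgHom (gr deg) (dec deg)
    (by
      apply hom_ext
      intro i
      have : dec deg (gen deg i) = DirectSum.of (fun n => gr deg n) (deg i) ⟨gen deg i, gen_mem deg i⟩ := by
        unfold dec; rw [lift_gen]
      rw [AlgHom.comp_apply, this, DirectSum.coeAlgHom_of]
      rfl)
    (by
      rintro n ⟨x, hx⟩
      induction hx using Submodule.span_induction with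
      | mem x hx =>
        obtain ⟨l, hl, rfl⟩ := hx
        subst hl
        exact dec_mon deg l
      | zero => 
        have : (⟨0, zero_mem _⟩ : gr deg n) = 0 := rfl
        rw [map_zero]
        exact (map_zero _).symm
      | add y z hy' hz' hy hz =>
        rw [map_add]
        rw [hy, hz, ← map_add]
        rfl
      | smul r y hy' hy =>
        rw [map_smul, hy, ← DirectSum.lof_eq_of ℚ, ← map_smul]
        rfl)

/-! ### graded commutativity -/

theorem gen_mon_comm (i : I) (l : List I) :
    gen deg i * mon deg l = (-1 : ℚ) ^ (deg i * wt deg l) • (mon deg l * gen deg i) := by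
  induction l with
  | nil => simp
  | cons j l ih =>
    rw [mon_cons, ← mul_assoc, gen_comm, smul_mul_assoc, mul_assoc, ih, mul_smul_comm, smul_smul,
      ← mul_assoc, wt_cons, mul_add, pow_add]

theorem mon_comm (l l' : List I) :
    mon deg l * mon deg l' = (-1 : ℚ) ^ (wt deg l * wt deg l') • (mon deg l' * mon deg l) := by
  induction l with
  | nil => simp
  | cons j l ih =>
    rw [mon_cons, mul_assoc, ih, mul_smul_comm, ← mul_assoc, gen_mon_comm, smul_mul_assoc,
      smul_smul, mul_assoc, wt_cons, add_mul, pow_add, mul_comm]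

theorem gr_comm (m n : ℕ) (a b : F deg) (ha : a ∈ gr deg m) (hb : b ∈ gr deg n) :
    a * b = (-1 : ℚ) ^ (m * n) • (b * a) := by
  induction ha using Submodule.span_induction with
  | mem x hx =>
    obtain ⟨l, hl, rfl⟩ := hx
    induction hb using Submodule.span_induction with
    | mem y hy =>
      obtain ⟨l', hl', rfl⟩ := hy
      rw [mon_comm, hl, hl']
    | zero => simp
    | add y z _ _ hy hz => rw [mul_add, add_mul, hy, hz, smul_add]
    | smul r y _ hy => rw [mul_smul_comm, hy, smul_mul_assoc, smul_comm]
  | zero => simp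
  | add y z _ _ hy hz => rw [mul_add, add_mul, hy, hz, smul_add]
  | smul r y _ hy => rw [mul_smul_comm, smul_mul_assoc, hy, smul_comm]

/-! ### derivations -/

/-- the grade involution -/
noncomputable def inv : F deg →ₐ[ℚ] F deg :=
  lift deg (fun i => (-1 : ℚ) ^ deg i • gen deg i) (by
    intro i j
    rw [smul_mul_smul_comm, smul_mul_smul_comm, gen_comm deg i j, smul_smul, smul_smul]
    congr 1
    ring)

theorem inv_gen (i : I) : inv deg (gen deg i) = (-1 : ℚ) ^ deg i • gen deg i := lift_gen _ _ _ _

theorem inv_mon (l : List I) : inv deg (mon deg l) = (-1 : ℚ) ^ wt deg l • mon deg l := by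
  induction l with
  | nil => simp
  | cons i l ih =>
    rw [mon_cons, map_mul, ih, inv_gen, smul_mul_smul_comm, wt_cons, pow_add]

theorem inv_gr {n : ℕ} {a : F deg} (ha : a ∈ gr deg n) : inv deg a = (-1 : ℚ) ^ n • a := by
  induction ha using Submodule.span_induction with
  | mem x hx =>
    obtain ⟨l, hl, rfl⟩ := hx
    rw [inv_mon, hl]
  | zero => simp
  | add y z _ _ hy hz => rw [map_add, hy, hz, smul_add]
  | smul r y _ hy => rw [map_smul, hy, smul_comm]

section der
variable (D : ∀ i : I, gr deg (deg i + 1))

/-- derivations as homomorphisms to triangular matrices -/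
noncomputable def Th : F deg →ₐ[ℚ] Matrix (Fin 2) (Fin 2) (F deg) :=
  lift deg (fun i => !![(-1 : ℚ) ^ deg i • gen deg i, (D i : F deg); 0, gen deg i]) (by
    intro i j
    have h1 := gen_comm deg i j
    have h2 := gr_comm deg _ _ _ _ (D i).2 (gen_mem deg j)
    have h3 := gr_comm deg _ _ _ _ (gen_mem deg i) (D j).2
    ext p q
    fin_cases p <;> fin_cases q
    · simp only [Matrix.mul_apply, Fin.sum_univ_two, Matrix.smul_apply]
      simp [h1, smul_smul]
      congr 1
      ring
    · simp only [Matrix.mul_apply, Fin.sum_univ_two, Matrix.smul_apply]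
      simp [h2, h3, smul_smul, smul_add]
      have h4 : (-1 : ℚ) ^ (deg i * 2) = 1 := by rw [mul_comm, pow_mul]; norm_num
      have h5 : (-1 : ℚ) ^ (deg j * 2) = 1 := by rw [mul_comm, pow_mul]; norm_num
      rw [add_comm]
      congr 1
      · congr 1
        ring
      · congr 1
        ring_nf
        rw [h4, one_mul]
    · simp only [Matrix.mul_apply, Fin.sum_univ_two, Matrix.smul_apply]
      simp
    · simp only [Matrix.mul_apply, Fin.sum_univ_two, Matrix.smul_apply]
      simp [h1])

theorem Th_gen (i : I) : Th deg D (gen deg i) =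
    !![(-1 : ℚ) ^ deg i • gen deg i, (D i : F deg); 0, gen deg i] := lift_gen _ _ _ _

/-- the derivation of degree one with given values on the generators -/
noncomputable def der : F deg →ₗ[ℚ] F deg where
  toFun a := Th deg D a 0 1
  map_add' a b := by rw [map_add]; rfl
  map_smul' r a := by rw [map_smul]; rfl

theorem Th_eq (a : F deg) : Th deg D a 0 0 = inv deg a ∧ Th deg D a 1 0 = 0 ∧ Th deg D a 1 1 = a := by
  refine induct deg (C := fun a => Th deg D a 0 0 = inv deg a ∧ Th deg D a 1 0 = 0 ∧
    Th deg D a 1 1 = a) ?_ ?_ ?_ ?_ a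
  · intro r
    rw [AlgHom.commutes, AlgHom.commutes]
    simp [Matrix.algebraMap_matrix_apply]
  · intro i
    rw [Th_gen, inv_gen]
    simp
  · rintro a b ⟨h1, h2, h3⟩ ⟨h4, h5, h6⟩
    rw [map_mul, map_mul]
    simp only [Matrix.mul_apply, Fin.sum_univ_two]
    rw [h1, h2, h3, h4, h5, h6]
    simp
  · rintro a b ⟨h1, h2, h3⟩ ⟨h4, h5, h6⟩
    rw [map_add, map_add]
    simp only [Matrix.add_apply]
    rw [h1, h2, h3, h4, h5, h6]
    simp

theorem der_gen (i : I) : der deg D (gen deg i) = D i := by
  show Th deg D (gen deg i) 0 1 = D i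
  rw [Th_gen]
  simp

theorem der_mul' (a b : F deg) : der deg D (a * b) = der deg D a * b + inv deg a * der deg D b := by
  show Th deg D (a * b) 0 1 = Th deg D a 0 1 * b + inv deg a * Th deg D b 0 1
  rw [map_mul, Matrix.mul_apply, Fin.sum_univ_two, (Th_eq deg D a).1, (Th_eq deg D b).2.2, add_comm]

theorem der_mul {n : ℕ} {a : F deg} (ha : a ∈ gr deg n) (b : F deg) :
    der deg D (a * b) = der deg D a * b + (-1 : ℚ) ^ n • (a * der deg D b) := by
  rw [der_mul', inv_gr deg ha, smul_mul_assoc]

theorem der_one : der deg D 1 = 0 := by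
  show Th deg D 1 0 1 = 0
  rw [map_one]
  simp

theorem der_mon_cons (i : I) (l : List I) : der deg D (mon deg (i :: l)) =
    (D i : F deg) * mon deg l + (-1 : ℚ) ^ deg i • (gen deg i * der deg D (mon deg l)) := by
  rw [mon_cons, der_mul deg D (gen_mem deg i), der_gen]

theorem der_mon_mem (l : List I) : der deg D (mon deg l) ∈ gr deg (wt deg l + 1) := by
  induction l with
  | nil => rw [mon_nil, der_one]; exact zero_mem _
  | cons i l ih =>
    rw [der_mon_cons, wt_cons]
    refine add_mem ?_ (Submodule.smul_mem _ _ ?_)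
    · have := mul_mem_gr deg (D i).2 (mon_mem deg l)
      have e : deg i + 1 + wt deg l = deg i + wt deg l + 1 := by ring
      rwa [e] at this
    · have := mul_mem_gr deg (gen_mem deg i) ih
      rwa [← add_assoc] at this

theorem der_mem {n : ℕ} {a : F deg} (ha : a ∈ gr deg n) : der deg D a ∈ gr deg (n + 1) := by
  induction ha using Submodule.span_induction with
  | mem x hx =>
    obtain ⟨l, hl, rfl⟩ := hx
    rw [← hl]
    exact der_mon_mem deg D l
  | zero => rw [map_zero]; exact zero_mem _
  | add y z _ _ hy hz => rw [map_add]; exact add_mem hy hz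
  | smul r y _ hy => rw [map_smul]; exact Submodule.smul_mem _ _ hy

theorem der_der_mon (l : List I) (h : ∀ i ∈ l, der deg D (D i) = 0) :
    der deg D (der deg D (mon deg l)) = 0 := by
  induction l with
  | nil => rw [mon_nil, der_one, map_zero]
  | cons i l ih =>
    rw [der_mon_cons, map_add, map_smul, der_mul deg D (D i).2, der_mul deg D (gen_mem deg i),
      h i (by simp), ih (fun j hj => h j (by simp [hj])), der_gen, zero_mul, mul_zero, smul_zero,
      add_zero, zero_add, pow_succ]
    simp

theorem der_der (h : ∀ i, der deg D (D i) = 0) (a : F deg) : der deg D (der deg D a) = 0 := by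
  have hs : a ∈ Submodule.span ℚ (Set.range (mon deg)) := by
    refine induct deg (C := fun a => a ∈ Submodule.span ℚ (Set.range (mon deg))) ?_ ?_ ?_ ?_ a
    · intro r
      rw [Algebra.algebraMap_eq_smul_one]
      exact Submodule.smul_mem _ _ (Submodule.subset_span ⟨[], rfl⟩)
    · intro i
      exact Submodule.subset_span ⟨[i], by simp⟩
    · intro a b ha hb
      have := Submodule.mul_mem_mul ha hb
      rw [Submodule.span_mul_span] at this
      refine Submodule.span_mono ?_ this
      rintro _ ⟨_, ⟨l, rfl⟩, _, ⟨l', rfl⟩, rfl⟩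
      exact ⟨l ++ l', mon_append deg l l'⟩
    · intro a b ha hb
      exact add_mem ha hb
  induction hs using Submodule.span_induction with
  | mem x hx =>
    obtain ⟨l, rfl⟩ := hx
    exact der_der_mon deg D l (fun i _ => h i)
  | zero => simp
  | add y z _ _ hy hz => rw [map_add, map_add, hy, hz, add_zero]
  | smul r y _ hy => rw [map_smul, map_smul, hy, smul_zero]

theorem der_congr_mon (D' : ∀ i : I, gr deg (deg i + 1)) (l : List I)
    (h : ∀ i ∈ l, D i = D' i) : der deg D (mon deg l) = der deg D' (mon deg l) := by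
  induction l with
  | nil => rw [mon_nil, der_one, der_one]
  | cons i l ih =>
    rw [der_mon_cons, der_mon_cons, ih (fun j hj => h j (by simp [hj])), h i (by simp)]

theorem der_congr (D' : ∀ i : I, gr deg (deg i + 1)) (n : ℕ)
    (h : ∀ l, wt deg l = n → ∀ i ∈ l, D i = D' i) {a : F deg} (ha : a ∈ gr deg n) :
    der deg D a = der deg D' a := by
  induction ha using Submodule.span_induction with
  | mem x hx =>
    obtain ⟨l, hl, rfl⟩ := hx
    exact der_congr_mon deg D D' l (h l hl)
  | zero => simp
  | add y z _ _ hy hz => rw [map_add, map_add, hy, hz]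
  | smul r y _ hy => rw [map_smul, map_smul, hy]

end der

/-! ### countability -/

theorem span_mon (a : F deg) : a ∈ Submodule.span ℚ (Set.range (mon deg)) := by
  refine induct deg (C := fun a => a ∈ Submodule.span ℚ (Set.range (mon deg))) ?_ ?_ ?_ ?_ a
  · intro r
    rw [Algebra.algebraMap_eq_smul_one]
    exact Submodule.smul_mem _ _ (Submodule.subset_span ⟨[], rfl⟩)
  · intro i
    exact Submodule.subset_span ⟨[i], by simp⟩
  · intro a b ha hb
    have := Submodule.mul_mem_mul ha hb
    rw [Submodule.span_mul_span] at this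
    refine Submodule.span_mono ?_ this
    rintro _ ⟨_, ⟨l, rfl⟩, _, ⟨l', rfl⟩, rfl⟩
    exact ⟨l ++ l', mon_append deg l l'⟩
  · intro a b ha hb
    exact add_mem ha hb

theorem countable_F [Countable I] : Countable (F deg) := by
  have hsurj : Function.Surjective (Finsupp.linearCombination ℚ (mon deg)) := by
    intro a
    have := span_mon deg a
    rw [← Finsupp.range_linearCombination] at this
    exact this
  exact hsurj.countable

end H539R3.SA
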