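import Mathlib

/-! Minimal Sullivan algebras: definitions. -/

set_option autoImplicit false

namespace H539R3

/-- A commutative graded algebra over `ℚ`, graded by `ℕ`: `a b = (-1)^(|a||b|) b a` for homogeneous
elements. -/
structure CGA where
  carrier : Type
  [ring : Ring carrier]
  [algebra : Algebra ℚ carrier]
  gr : ℕ → Submodule ℚ carrier
  [graded : GradedAlgebra gr]
  comm : ∀ (m n : ℕ) (a b : carrier), a ∈ gr m → b ∈ gr n → a * b = (-1 : ℚ) ^ (m * n) • (b * a)

attribute [instance] CGA.ring CGA.algebra CGA.graded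

namespace CGA

/-- `A` is the free commutative graded algebra on the elements `v i` of degree `deg i`. -/
def IsFreeOn (A : CGA) {I : Type} (deg : I → ℕ) (v : I → A.carrier) : Prop :=
  (∀ i, v i ∈ A.gr (deg i)) ∧ ∀ (B : CGA) (w : I → B.carrier), (∀ i, w i ∈ B.gr (deg i)) →
    ∃! φ : A.carrier →ₐ[ℚ] B.carrier, ∀ i, φ (v i) = w i

/-- `d` is a derivation of degree one with square zero. -/
structure IsDifferential (A : CGA) (d : A.carrier →ₗ[ℚ] A.carrier) : Prop where
  degree : ∀ (n : ℕ) (a : A.carrier), a ∈ A.gr n → d a ∈ A.gr (n + 1)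
  leibniz : ∀ (n : ℕ) (a b : A.carrier), a ∈ A.gr n → d (a * b) = d a * b + (-1 : ℚ) ^ n • (a * d b)
  square : ∀ a : A.carrier, d (d a) = 0

/-- the linear combinations of products of two homogeneous elements of positive degree
(`Λ^{≥2} V` in a free algebra `ΛV`) -/
def decomposables (A : CGA) : Submodule ℚ A.carrier :=
  Submodule.span ℚ {z | ∃ (m n : ℕ) (a b : A.carrier),
    1 ≤ m ∧ 1 ≤ n ∧ a ∈ A.gr m ∧ b ∈ A.gr n ∧ z = a * b}

/-- the sums of homogeneous elements of even degree -/
def evenPart (A : CGA) : Submodule ℚ A.carrier := ⨆ n : ℕ, A.gr (2 * n)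

end CGA

/-- A minimal Sullivan algebra `(ΛV, d)` with `V^0 = V^1 = 0`, together with a homogeneous basis
`(v i)` of `V`, `v i` of degree `deg i ≥ 2`: the commutative graded algebra `A` is free on the
`v i`, and `d` is a differential with `d (v i)` in `Λ^{≥2} V`. -/
structure MinSullivan where
  A : CGA
  I : Type
  deg : I → ℕ
  v : I → A.carrier
  d : A.carrier →ₗ[ℚ] A.carrier
  two_le : ∀ i, 2 ≤ deg i
  free : A.IsFreeOn deg v
  differential : A.IsDifferential d
  minimal : ∀ i, d (v i) ∈ A.decomposables

namespace MinSullivan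

variable (S : MinSullivan)

/-- the cocycles in the even part -/
def evenCocycles : Submodule ℚ S.A.carrier := S.A.evenPart ⊓ LinearMap.ker S.d

/-- the coboundaries -/
def coboundaries : Submodule ℚ S.A.carrier := LinearMap.range S.d

/-- `H^even (ΛV, d)`, the image of the even cocycles modulo coboundaries -/
def evenCohomology : Submodule ℚ (S.A.carrier ⧸ S.coboundaries) :=
  S.evenCocycles.map S.coboundaries.mkQ

/-- `H^even (ΛV, d)` is finite dimensional -/
def FiniteEvenCohomology : Prop := FiniteDimensional ℚ S.evenCohomology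

/-- the ideal of `ΛV` generated by `V^{<k}` -/
def lowIdeal (k : ℕ) : Submodule ℚ S.A.carrier :=
  Submodule.span ℚ {z | ∃ (a b : S.A.carrier) (j : S.I), S.deg j < k ∧ z = a * S.v j * b}

/-- The class of `v i` is nilpotent in the cohomology of the quotient of `(ΛV, d)` by the ideal
generated by `V^{< deg i}`: some power of `v i` is a coboundary modulo that ideal. -/
def NilpotentInFibre (i : S.I) : Prop :=
  ∃ m : ℕ, 1 ≤ m ∧ ∃ z : S.A.carrier, S.v i ^ m - S.d z ∈ S.lowIdeal (S.deg i)

end MinSullivan

end H539R3
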