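import Pool.Agent.H539R3.SA.Phi
import Pool.Agent.H539R3.SA.Sull

/-! The counterexample. -/

set_option autoImplicit false

namespace H539R3.SA

open MvPolynomial

theorem sq_mem (n : ℕ) (hn : Even n) (h6 : 6 ≤ n) {a : F dg} (ha : a ∈ gr dg n) :
    a ∈ Submodule.span ℚ {z : F dg | ∃ (m n : ℕ) (a b : F dg),
      1 ≤ m ∧ 1 ≤ n ∧ a ∈ gr dg m ∧ b ∈ gr dg n ∧ z = a * b} := by
  refine Submodule.span_le.mpr ?_ ha
  rintro _ ⟨l, hl, rfl⟩
  rcases l with _ | ⟨i, _ | ⟨j, l⟩⟩
  · rw [wt_nil] at hl; omega
  · exfalso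
    rw [wt_cons, wt_nil, add_zero] at hl
    cases i with
    | e t => have : dg (.e t) = 2 := rfl; omega
    | u j => have : dg (.u j) = 3 := rfl; omega
    | x => have : dg .x = 4 := rfl; omega
    | y k j =>
      have : dg (.y k j) = 2 * k + 5 := rfl
      obtain ⟨r, hr⟩ := hn
      omega
  · refine Submodule.subset_span ⟨dg i, wt dg (j :: l), gen dg i, mon dg (j :: l), ?_, ?_,
      gen_mem dg i, mon_mem dg _, mon_cons dg i _⟩
    · have := two_le_dg i
      omega
    · rw [wt_cons]
      have := two_le_dg j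
      omega

theorem len_le (l : List G) : 2 * l.length ≤ wt dg l := by
  induction l with
  | nil => simp
  | cons i l ih =>
    rw [wt_cons, List.length_cons]
    have := two_le_dg i
    omega

theorem mem_le (l : List G) (i : G) (h : i ∈ l) : dg i ≤ wt dg l := by
  obtain ⟨r, hr, -⟩ := wt_mem l i h
  omega

theorem fin_low : Finite {i : G // dg i ≤ 4} := by
  have h : {i : G | dg i ≤ 4} ⊆ Set.range G.e ∪ Set.range G.u ∪ {G.x} := by
    intro i hi
    cases i with
    | e t => left; left; exact ⟨t, rfl⟩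
    | u j => left; right; exact ⟨j, rfl⟩
    | x => right; rfl
    | y k j =>
      have : 2 * k + 5 ≤ 4 := hi
      omega
  exact Set.Finite.subset (((Set.finite_range _).union (Set.finite_range _)).union
    (Set.finite_singleton _)) h

theorem fin_gr (n : ℕ) (hn : n ≤ 4) : FiniteDimensional ℚ (gr dg n) := by
  haveI := fin_low
  have h1 : {l : List G | wt dg l = n}.Finite := by
    refine Set.Finite.subset ((List.finite_length_le {i : G // dg i ≤ 4} 4).image
      (List.map Subtype.val)) ?_
    intro l hl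
    have hl' : wt dg l = n := hl
    have h2 : ∀ i ∈ l, dg i ≤ 4 := fun i hi => (mem_le l i hi).trans (by omega)
    lift l to List {i : G // dg i ≤ 4} using h2
    refine ⟨l, ?_, rfl⟩
    have := len_le (l.map Subtype.val)
    rw [List.length_map] at this
    show l.length ≤ 4
    omega
  have h2 : {z : F dg | ∃ l, wt dg l = n ∧ z = mon dg l}.Finite := by
    refine Set.Finite.subset (h1.image (mon dg)) ?_
    rintro _ ⟨l, hl, rfl⟩
    exact ⟨l, hl, rfl⟩
  exact FiniteDimensional.span_of_finite ℚ h2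

/-- the low degree part -/
noncomputable def W : Submodule ℚ (F dg) := gr dg 0 ⊔ gr dg 2 ⊔ gr dg 4

theorem fin_W : FiniteDimensional ℚ W := by
  haveI := fin_gr 0 (by norm_num)
  haveI := fin_gr 2 (by norm_num)
  haveI := fin_gr 4 (by norm_num)
  unfold W
  infer_instance

theorem even_coc (z : F dg) (hz : z ∈ ⨆ n : ℕ, gr dg (2 * n)) (hd : der dg Df z = 0) :
    z ∈ W ⊔ LinearMap.range (der dg Df) := by
  classical
  obtain ⟨f, hf, rfl⟩ := (Submodule.mem_iSup_iff_exists_finsupp _ _).mp hz
  have hfd : ∀ n, der dg Df (f n) = 0 := by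
    intro n
    by_cases hn : n ∈ f.support
    · have h1 := congrArg (GradedAlgebra.proj (gr dg) (2 * n + 1)) hd
      rw [Finsupp.sum, map_sum, map_sum, map_zero, Finset.sum_eq_single n] at h1
      · rw [GradedAlgebra.proj_apply, DirectSum.decompose_of_mem_same _ (der_mem dg Df (hf n))] at h1
        exact h1
      · intro m _ hm
        rw [GradedAlgebra.proj_apply]
        exact DirectSum.decompose_of_mem_ne _ (der_mem dg Df (hf m)) (by omega)
      · intro h; exact absurd hn h
    · rw [Finsupp.notMem_support_iff.mp hn, map_zero]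
  refine Submodule.sum_mem _ fun n _ => ?_
  by_cases h3 : 3 ≤ n
  · obtain ⟨k, rfl⟩ := Nat.exists_eq_add_of_le h3
    have hk : f (3 + k) ∈ gr dg (2 * k + 5 + 1) := by
      have e : 2 * (3 + k) = 2 * k + 5 + 1 := by ring
      rw [← e]; exact hf _
    obtain ⟨j, hj⟩ := Df_surj k _ hk (hfd _)
    refine Submodule.mem_sup_right ⟨gen dg (.y k j), ?_⟩
    rw [der_gen, hj]
  · refine Submodule.mem_sup_left ?_
    have hn := hf n
    have : n = 0 ∨ n = 1 ∨ n = 2 := by omega
    unfold W
    rcases this with rfl | rfl | rfl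
    · exact Submodule.mem_sup_left (Submodule.mem_sup_left hn)
    · exact Submodule.mem_sup_left (Submodule.mem_sup_right hn)
    · exact Submodule.mem_sup_right hn

/-- the free algebra as a commutative graded algebra -/
noncomputable def cga : CGA where
  carrier := F dg
  gr := gr dg
  comm := gr_comm dg

theorem min_aux (i : G) : der dg Df (gen dg i) ∈ Submodule.span ℚ {z : F dg |
    ∃ (m n : ℕ) (a b : F dg), 1 ≤ m ∧ 1 ≤ n ∧ a ∈ gr dg m ∧ b ∈ gr dg n ∧ z = a * b} := by
  rw [der_gen]
  cases i with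
  | e t => exact zero_mem _
  | u j =>
    exact Submodule.subset_span ⟨2, 2, _, _, by norm_num, by norm_num, gen_mem dg (.e (fp j)),
      gen_mem dg (.e (fq j)), rfl⟩
  | x =>
    refine sub_mem (add_mem ?_ ?_) (Submodule.smul_mem _ _ ?_)
    · exact Submodule.subset_span ⟨2, 3, _, _, by norm_num, by norm_num, gen_mem dg (.e 0),
        gen_mem dg (.u 4), rfl⟩
    · exact Submodule.subset_span ⟨2, 3, _, _, by norm_num, by norm_num, gen_mem dg (.e 1),
        gen_mem dg (.u 5), rfl⟩
    · exact Submodule.subset_span ⟨2, 3, _, _, by norm_num, by norm_num, gen_mem dg (.e 2),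
        gen_mem dg (.u 3), rfl⟩
  | y k j => exact sq_mem (2 * k + 5 + 1) ⟨k + 3, by ring⟩ (by omega) (Df (.y k j)).2

/-- the counterexample -/
noncomputable def S : MinSullivan where
  A := cga
  I := G
  deg := dg
  v := gen dg
  d := der dg Df
  two_le := two_le_dg
  free := by
    refine ⟨gen_mem dg, ?_⟩
    intro B w hw
    refine ⟨lift dg w (fun i j => B.comm _ _ _ _ (hw i) (hw j)), fun i => lift_gen _ _ _ _, ?_⟩
    intro ψ hψ
    apply hom_ext
    intro i
    rw [lift_gen]
    exact hψ i
  differential := ⟨fun n a ha => der_mem dg Df ha, fun n a b ha => der_mul dg Df ha b,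
    der_der dg Df Df_coc⟩
  minimal := min_aux

theorem S_even : {i : S.I | Even (S.deg i)}.Finite := by
  have h : {i : G | Even (dg i)} ⊆ {i : G | dg i ≤ 4} := by
    intro i hi
    cases i with
    | e t => show 2 ≤ 4; norm_num
    | u j => show 3 ≤ 4; norm_num
    | x => show 4 ≤ 4; norm_num
    | y k j =>
      obtain ⟨r, hr⟩ : Even (2 * k + 5) := hi
      omega
  exact Set.Finite.subset fin_low h

theorem coh : FiniteDimensional ℚ ((((⨆ n : ℕ, gr dg (2 * n)) ⊓ LinearMap.ker (der dg Df)) :
    Submodule ℚ (F dg)).map (LinearMap.range (der dg Df)).mkQ) := by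
  have hW : Module.Finite ℚ W := fin_W
  have hm : FiniteDimensional ℚ (W.map (LinearMap.range (der dg Df)).mkQ) :=
    Module.Finite.map W _
  have h : (((⨆ n : ℕ, gr dg (2 * n)) ⊓ LinearMap.ker (der dg Df)) :
    Submodule ℚ (F dg)).map (LinearMap.range (der dg Df)).mkQ ≤
      W.map (LinearMap.range (der dg Df)).mkQ := by
    rintro _ ⟨z, hz, rfl⟩
    obtain ⟨w, hw, r, hr, rfl⟩ := Submodule.mem_sup.mp (even_coc z hz.1 hz.2)
    refine ⟨w, hw, ?_⟩
    have : (LinearMap.range (der dg Df)).mkQ r = 0 := by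
      rw [Submodule.mkQ_apply, Submodule.Quotient.mk_eq_zero]; exact hr
    rw [map_add, this, add_zero]
  exact Submodule.finiteDimensional_of_le h

theorem S_coh : S.FiniteEvenCohomology := coh

theorem chi_ideal (z : F dg)
    (hz : z ∈ Submodule.span ℚ {z : F dg | ∃ (a b : F dg) (j : G), dg j < 4 ∧ z = a * gen dg j * b}) :
    chi z = 0 := by
  induction hz using Submodule.span_induction with
  | mem x hx =>
    obtain ⟨a, b, j, hj, rfl⟩ := hx
    rw [map_mul, map_mul, chi_low j hj, mul_zero, zero_mul]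
  | zero => exact map_zero _
  | add y z _ _ hy hz => rw [map_add, hy, hz, add_zero]
  | smul r y _ hy => rw [map_smul, hy, smul_zero]

theorem not_nil (m : ℕ) (z : F dg) (h : gen dg .x ^ m - der dg Df z ∈
    Submodule.span ℚ {z : F dg | ∃ (a b : F dg) (j : G), dg j < 4 ∧ z = a * gen dg j * b}) :
    False := by
  have h' := chi_ideal _ h
  rw [map_sub, map_pow, chi_x, chi_der, sub_zero] at h'
  exact pow_ne_zero m Polynomial.X_ne_zero h'

theorem S_not_nilpotent : ¬ S.NilpotentInFibre G.x := by
  rintro ⟨m, -, z, hz⟩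
  exact not_nil m z hz

end H539R3.SA
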