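import Pool.Agent.H539R3.SA.Sel
import Pool.Agent.H539R3.SA.Fin

/-! The counterexample with finitely many generators in each degree. -/

set_option autoImplicit false

namespace H539R3.SA

open MvPolynomial

section generic
variable {I : Type} (deg : I → ℕ)

theorem mem_le_wt (l : List I) (i : I) (h : i ∈ l) : deg i ≤ wt deg l := by
  induction l with
  | nil => simp at h
  | cons j l ih =>
    rw [wt_cons]
    rcases List.mem_cons.mp h with rfl | h
    · omega
    · have := ih h
      omega

theorem gr_fin (h2 : ∀ i, 2 ≤ deg i) (hfin : {i | deg i ≤ 4}.Finite) (n : ℕ) (hn : n ≤ 4) :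
    FiniteDimensional ℚ (gr deg n) := by
  have h1 : FiniteDimensional ℚ (ws deg {i | deg i ≤ 4} n) := ws_fin deg h2 _ hfin n
  have h3 : gr deg n ≤ ws deg {i | deg i ≤ 4} n := by
    refine Submodule.span_le.mpr ?_
    rintro _ ⟨l, hl, rfl⟩
    exact Submodule.subset_span ⟨l, hl, fun i hi => by
      have := mem_le_wt deg l i hi
      show deg i ≤ 4
      omega, rfl⟩
  exact Submodule.finiteDimensional_of_le h3

variable (D : ∀ i : I, gr deg (deg i + 1))

theorem even_coc_gen
    (hs : ∀ k, ∀ z ∈ gr deg (2 * k + 5 + 1), der deg D z = 0 → z ∈ LinearMap.range (der deg D))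
    (z : F deg) (hz : z ∈ ⨆ n : ℕ, gr deg (2 * n)) (hd : der deg D z = 0) :
    z ∈ (gr deg 0 ⊔ gr deg 2 ⊔ gr deg 4) ⊔ LinearMap.range (der deg D) := by
  classical
  obtain ⟨f, hf, rfl⟩ := (Submodule.mem_iSup_iff_exists_finsupp _ _).mp hz
  have hfd : ∀ n, der deg D (f n) = 0 := by
    intro n
    by_cases hn : n ∈ f.support
    · have h1 := congrArg (GradedAlgebra.proj (gr deg) (2 * n + 1)) hd
      rw [Finsupp.sum, map_sum, map_sum, map_zero, Finset.sum_eq_single n] at h1
      · rw [GradedAlgebra.proj_apply, DirectSum.decompose_of_mem_same _ (der_mem deg D (hf n))] at h1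
        exact h1
      · intro m _ hm
        rw [GradedAlgebra.proj_apply]
        exact DirectSum.decompose_of_mem_ne _ (der_mem deg D (hf m)) (by omega)
      · intro h; exact absurd hn h
    · rw [Finsupp.notMem_support_iff.mp hn, map_zero]
  refine Submodule.sum_mem _ fun n _ => ?_
  by_cases h3 : 3 ≤ n
  · obtain ⟨k, rfl⟩ := Nat.exists_eq_add_of_le h3
    have hk : f (3 + k) ∈ gr deg (2 * k + 5 + 1) := by
      have e : 2 * (3 + k) = 2 * k + 5 + 1 := by ring
      rw [← e]; exact hf _
    exact Submodule.mem_sup_right (hs k _ hk (hfd _))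
  · refine Submodule.mem_sup_left ?_
    have hn := hf n
    have : n = 0 ∨ n = 1 ∨ n = 2 := by omega
    rcases this with rfl | rfl | rfl
    · exact Submodule.mem_sup_left (Submodule.mem_sup_left hn)
    · exact Submodule.mem_sup_left (Submodule.mem_sup_right hn)
    · exact Submodule.mem_sup_right hn

theorem coh_gen (h2 : ∀ i, 2 ≤ deg i) (hfin : {i | deg i ≤ 4}.Finite)
    (hs : ∀ k, ∀ z ∈ gr deg (2 * k + 5 + 1), der deg D z = 0 → z ∈ LinearMap.range (der deg D)) :
    FiniteDimensional ℚ ((((⨆ n : ℕ, gr deg (2 * n)) ⊓ LinearMap.ker (der deg D)) :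
    Submodule ℚ (F deg)).map (LinearMap.range (der deg D)).mkQ) := by
  have a0 := gr_fin deg h2 hfin 0 (by norm_num)
  have a2 := gr_fin deg h2 hfin 2 (by norm_num)
  have a4 := gr_fin deg h2 hfin 4 (by norm_num)
  have hW : Module.Finite ℚ ((gr deg 0 ⊔ gr deg 2 ⊔ gr deg 4 : Submodule ℚ (F deg))) := by
    infer_instance
  have hm : FiniteDimensional ℚ ((gr deg 0 ⊔ gr deg 2 ⊔ gr deg 4 : Submodule ℚ (F deg)).map
      (LinearMap.range (der deg D)).mkQ) := Module.Finite.map _ _
  have h : (((⨆ n : ℕ, gr deg (2 * n)) ⊓ LinearMap.ker (der deg D)) :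
    Submodule ℚ (F deg)).map (LinearMap.range (der deg D)).mkQ ≤
      (gr deg 0 ⊔ gr deg 2 ⊔ gr deg 4 : Submodule ℚ (F deg)).map
        (LinearMap.range (der deg D)).mkQ := by
    rintro _ ⟨z, hz, rfl⟩
    obtain ⟨w, hw, r, hr, rfl⟩ := Submodule.mem_sup.mp (even_coc_gen deg D hs z hz.1 hz.2)
    refine ⟨w, hw, ?_⟩
    have : (LinearMap.range (der deg D)).mkQ r = 0 := by
      rw [Submodule.mkQ_apply, Submodule.Quotient.mk_eq_zero]; exact hr
    rw [map_add, this, add_zero]
  exact Submodule.finiteDimensional_of_le h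

end generic

section incl
variable {I J : Type} (deg : I → ℕ) (deg' : J → ℕ) (f : I → J) (hf : ∀ i, deg' (f i) = deg i)

/-- the homomorphism induced by a degree preserving map of generators -/
noncomputable def incl : F deg →ₐ[ℚ] F deg' :=
  lift deg (fun i => gen deg' (f i)) (by
    intro i j
    rw [← hf i, ← hf j]
    exact gen_comm deg' (f i) (f j))

theorem incl_gen (i : I) : incl deg deg' f hf (gen deg i) = gen deg' (f i) := lift_gen _ _ _ _

include hf in
theorem wt_map (l : List I) : wt deg' (l.map f) = wt deg l := by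
  induction l with
  | nil => rfl
  | cons i l ih => rw [List.map_cons, wt_cons, wt_cons, ih, hf]

theorem incl_mon (l : List I) : incl deg deg' f hf (mon deg l) = mon deg' (l.map f) := by
  induction l with
  | nil => exact map_one _
  | cons i l ih => rw [mon_cons, map_mul, ih, incl_gen, List.map_cons, mon_cons]

theorem incl_der (D : ∀ i : I, gr deg (deg i + 1)) (D' : ∀ i : J, gr deg' (deg' i + 1))
    (h : ∀ i, incl deg deg' f hf (D i) = D' (f i)) (a : F deg) :
    incl deg deg' f hf (der deg D a) = der deg' D' (incl deg deg' f hf a) := by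
  have hs := span_mon deg a
  induction hs using Submodule.span_induction with
  | mem x hx =>
    obtain ⟨l, rfl⟩ := hx
    induction l with
    | nil => rw [mon_nil, der_one, map_zero, map_one, der_one]
    | cons i l ih =>
      rw [der_mon_cons, map_add, map_smul, map_mul, map_mul, ih, h, incl_gen, mon_cons, map_mul,
        incl_gen, der_mul deg' D' (gen_mem deg' (f i)), der_gen]
      have e : (-1 : ℚ) ^ deg' (f i) = (-1 : ℚ) ^ deg i := by rw [hf]
      rw [e]
  | zero => simp
  | add y z _ _ hy hz => rw [map_add, map_add, map_add, map_add, hy, hz]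
  | smul r y _ hy => rw [map_smul, map_smul, map_smul, map_smul, hy]

end incl

/-- degrees of the selected generators -/
def dU (i : U) : ℕ := dg i.1

/-- inclusion -/
noncomputable def inc : F dU →ₐ[ℚ] F dg := incl dU dg Subtype.val (fun _ => rfl)

open Classical in
/-- values of the retraction -/
noncomputable def wR (i : G) : F dU := if h : i ∈ U then gen dU ⟨i, h⟩ else 0

theorem wR_mem (i : G) : wR i ∈ gr dU (dg i) := by
  unfold wR
  split_ifs with h
  · exact gen_mem dU ⟨i, h⟩
  · exact zero_mem _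

theorem wR_U (i : U) : wR i.1 = gen dU i := dif_pos i.2

/-- retraction -/
noncomputable def ret : F dg →ₐ[ℚ] F dU :=
  lift dg wR (fun i j => gr_comm dU _ _ _ _ (wR_mem i) (wR_mem j))

theorem ret_gen (i : G) : ret (gen dg i) = wR i := lift_gen _ _ _ _

theorem inc_gen (i : U) : inc (gen dU i) = gen dg i.1 := incl_gen _ _ _ _ _

theorem inc_mon (l : List U) : inc (mon dU l) = mon dg (l.map Subtype.val) :=
  incl_mon dU dg Subtype.val (fun _ => rfl) l

theorem ret_inc (a : F dU) : ret (inc a) = a := by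
  have : ret.comp inc = AlgHom.id ℚ _ := by
    apply hom_ext
    intro i
    rw [AlgHom.comp_apply]
    rw [inc_gen, ret_gen]
    exact wR_U i
  exact DFunLike.congr_fun this a

theorem inc_inj {a b : F dU} (h : inc a = inc b) : a = b := by
  rw [← ret_inc a, h, ret_inc]

theorem ret_gr {n : ℕ} {a : F dg} (ha : a ∈ gr dg n) : ret a ∈ gr dU n := by
  induction ha using Submodule.span_induction with
  | mem x hx =>
    obtain ⟨l, hl, rfl⟩ := hx
    subst hl
    induction l with
    | nil => rw [mon_nil, map_one]; exact one_mem_gr dU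
    | cons i l ih =>
      rw [mon_cons, map_mul, wt_cons, ret_gen]
      exact mul_mem_gr dU (wR_mem i) ih
  | zero => rw [map_zero]; exact zero_mem _
  | add y z _ _ hy hz => rw [map_add]; exact add_mem hy hz
  | smul r y _ hy => rw [map_smul]; exact Submodule.smul_mem _ _ hy

theorem inc_ret_mon (l : List G) (h : ∀ i ∈ l, i ∈ U) : inc (ret (mon dg l)) = mon dg l := by
  induction l with
  | nil => rw [mon_nil, map_one, map_one]
  | cons i l ih =>
    rw [mon_cons, map_mul, map_mul, ih fun j hj => h j (by simp [hj]), ret_gen,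
      wR_U ⟨i, h i (by simp)⟩, inc_gen]

theorem inc_ret {n : ℕ} {a : F dg} (ha : a ∈ ws dg U n) : inc (ret a) = a := by
  induction ha using Submodule.span_induction with
  | mem x hx =>
    obtain ⟨l, hl, hU, rfl⟩ := hx
    exact inc_ret_mon l hU
  | zero => simp
  | add y z _ _ hy hz => rw [map_add, map_add, hy, hz]
  | smul r y _ hy => rw [map_smul, map_smul, hy]

/-- the differential on the selected generators -/
noncomputable def DU (s : U) : gr dU (dU s + 1) := ⟨ret (Df s.1), ret_gr (Df s.1).2⟩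

theorem inc_DU (s : U) : inc (DU s) = Df s.1 := inc_ret (Df_ws s.1 s.2)

theorem inc_der (a : F dU) : inc (der dU DU a) = der dg Df (inc a) :=
  incl_der dU dg Subtype.val (fun _ => rfl) DU Df inc_DU a

theorem DU_coc (s : U) : der dU DU (DU s) = 0 := by
  apply inc_inj
  rw [inc_der, inc_DU, Df_coc, map_zero]

theorem inc_ws {n : ℕ} {a : F dU} (ha : a ∈ gr dU n) : inc a ∈ ws dg U n := by
  induction ha using Submodule.span_induction with
  | mem x hx =>
    obtain ⟨l, hl, rfl⟩ := hx
    rw [inc_mon]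
    refine Submodule.subset_span ⟨l.map Subtype.val, ?_, ?_, rfl⟩
    · rw [← hl]
      exact wt_map dU dg Subtype.val (fun _ => rfl) l
    · intro i hi
      obtain ⟨j, -, rfl⟩ := List.mem_map.mp hi
      exact j.2
  | zero => rw [map_zero]; exact zero_mem _
  | add y z _ _ hy hz => rw [map_add]; exact add_mem hy hz
  | smul r y _ hy => rw [map_smul]; exact Submodule.smul_mem _ _ hy

theorem surjU (k : ℕ) (z : F dU) (hz : z ∈ gr dU (2 * k + 5 + 1)) (hd : der dU DU z = 0) :
    z ∈ LinearMap.range (der dU DU) := by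
  have h1 : inc z ∈ ws dg (Vs k).1 (2 * k + 5 + 1) := ws_U k (inc_ws hz)
  have h2 : der dg Df (inc z) = 0 := by rw [← inc_der, hd, map_zero]
  have h3 := pick_span k (Vs k) (inc z) h1 h2
  have h4 : Submodule.span ℚ {w : F dg | ∃ j ∈ pick k (Vs k), w = Df (.y k j)} ≤
      (LinearMap.range (der dU DU)).map inc.toLinearMap := by
    refine Submodule.span_le.mpr ?_
    rintro _ ⟨j, hj, rfl⟩
    have hU : G.y k j ∈ U := (U_y k j).mpr hj
    refine ⟨DU ⟨_, hU⟩, ⟨gen dU ⟨_, hU⟩, der_gen _ _ _⟩, ?_⟩
    exact inc_DU ⟨_, hU⟩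
  obtain ⟨t, ht, htz⟩ := h4 h3
  have : t = z := inc_inj htz
  rw [← this]
  exact ht

theorem lowU_fin : {i : U | dU i ≤ 4}.Finite := by
  have h : {i : G | dg i ≤ 4}.Finite := fin_low
  exact h.preimage Subtype.val_injective.injOn

/-- the free algebra on the selected generators -/
noncomputable def cgaU : CGA where
  carrier := F dU
  gr := gr dU
  comm := gr_comm dU

theorem minU_aux (i : U) : der dU DU (gen dU i) ∈ Submodule.span ℚ {z : F dU |
    ∃ (m n : ℕ) (a b : F dU), 1 ≤ m ∧ 1 ≤ n ∧ a ∈ gr dU m ∧ b ∈ gr dU n ∧ z = a * b} := by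
  have h := min_aux i.1
  rw [der_gen] at h ⊢
  show ret (Df i.1) ∈ _
  generalize (Df i.1 : F dg) = w at h
  induction h using Submodule.span_induction with
  | mem x hx =>
    obtain ⟨m, n, a, b, hm, hn, ha, hb, rfl⟩ := hx
    exact Submodule.subset_span ⟨m, n, ret a, ret b, hm, hn, ret_gr ha, ret_gr hb, map_mul _ _ _⟩
  | zero => rw [map_zero]; exact zero_mem _
  | add y z _ _ hy hz => rw [map_add]; exact add_mem hy hz
  | smul r y _ hy => rw [map_smul]; exact Submodule.smul_mem _ _ hy

/-- the counterexample of finite type -/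
noncomputable def SU : MinSullivan where
  A := cgaU
  I := U
  deg := dU
  v := gen dU
  d := der dU DU
  two_le := fun i => two_le_dg i.1
  free := by
    refine ⟨gen_mem dU, ?_⟩
    intro B w hw
    refine ⟨lift dU w (fun i j => B.comm _ _ _ _ (hw i) (hw j)), fun i => lift_gen _ _ _ _, ?_⟩
    intro ψ hψ
    apply hom_ext
    intro i
    rw [lift_gen]
    exact hψ i
  differential := ⟨fun n a ha => der_mem dU DU ha, fun n a b ha => der_mul dU DU ha b,
    der_der dU DU DU_coc⟩
  minimal := minU_aux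

theorem SU_fin (n : ℕ) : {i : SU.I | SU.deg i = n}.Finite := by
  have h : {i : G | i ∈ U ∧ dg i = n}.Finite := by
    refine Set.Finite.subset ((Vs (n + 1)).2) ?_
    rintro i ⟨hi, hn⟩
    cases i with
    | e t => exact Vs_e _ t
    | u t => exact Vs_u _ t
    | x => exact Vs_x _
    | y k j =>
      have : 2 * k + 5 = n := hn
      exact (Vs_y _ k j).mpr ⟨by omega, (U_y k j).mp hi⟩
  have h2 : {i : U | dU i = n} ⊆ Subtype.val ⁻¹' {i : G | i ∈ U ∧ dg i = n} := fun i hi => ⟨i.2, hi⟩
  exact (h.preimage Subtype.val_injective.injOn).subset h2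

theorem SU_even : {i : SU.I | Even (SU.deg i)}.Finite := by
  have h : {i : G | Even (dg i)}.Finite := S_even
  exact h.preimage (f := (Subtype.val : U → G)) Subtype.val_injective.injOn

theorem SU_coh : SU.FiniteEvenCohomology :=
  coh_gen dU DU (fun i => two_le_dg i.1) lowU_fin surjU

theorem not_nilU (m : ℕ) (z : F dU) (hx : G.x ∈ U) (h : gen dU ⟨.x, hx⟩ ^ m - der dU DU z ∈
    Submodule.span ℚ {z : F dU | ∃ (a b : F dU) (j : U), dU j < 4 ∧ z = a * gen dU j * b}) :
    False := by
  refine not_nil m (inc z) ?_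
  have e : gen dg .x ^ m - der dg Df (inc z) = inc (gen dU ⟨.x, hx⟩ ^ m - der dU DU z) := by
    rw [map_sub, map_pow, inc_gen, inc_der]
  rw [e]
  generalize gen dU ⟨.x, hx⟩ ^ m - der dU DU z = w at h
  induction h using Submodule.span_induction with
  | mem x hx =>
    obtain ⟨a, b, j, hj, rfl⟩ := hx
    refine Submodule.subset_span ⟨inc a, inc b, j.1, hj, ?_⟩
    rw [map_mul, map_mul, inc_gen]
  | zero => rw [map_zero]; exact zero_mem _
  | add y z _ _ hy hz => rw [map_add]; exact add_mem hy hz
  | smul r y _ hy => rw [map_smul]; exact Submodule.smul_mem _ _ hy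

theorem x_mem : G.x ∈ U := ⟨0, Vs_x 0⟩

theorem SU_not_nilpotent : ¬ SU.NilpotentInFibre (⟨G.x, x_mem⟩ : U) := by
  rintro ⟨m, -, z, hz⟩
  exact not_nilU m z x_mem hz

end H539R3.SA
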