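import Pool.Agent.H539R3.SA.Alg
import Pool.Agent.H662R3.SA.K

/-! The comparison with the Koszul complex and the non-nilpotency of `x`. -/

set_option autoImplicit false

namespace H539R3.SA

open MvPolynomial

/-- even part of the target -/
abbrev T : Type := TrivSqZeroExt R (Fin 6 → R)

/-- generators of the polynomial part -/
noncomputable def wpi : G → R
  | .e t => X t.castSucc
  | .u _ => 0
  | .x => X 3
  | .y _ _ => 0

theorem sgn_even {n : ℕ} (h : Even n) : (-1 : ℚ) ^ n = 1 := h.neg_one_pow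

/-- the projection to the polynomial part -/
noncomputable def pi : F dg →ₐ[ℚ] R :=
  lift dg wpi (by
    intro i j
    rw [mul_comm (wpi j) (wpi i)]
    by_cases h : Even (dg i * dg j)
    · rw [sgn_even h, one_smul]
    · have hi : Odd (dg i) := by
        rw [← Nat.not_even_iff_odd]; exact fun h' => h (h'.mul_right _)
      have : wpi i = 0 := by
        cases i with
        | e t => exact absurd (show Even (dg (.e t)) from ⟨1, rfl⟩) (Nat.not_even_iff_odd.mpr hi)
        | u j => rfl
        | x => exact absurd (show Even (dg .x) from ⟨2, rfl⟩) (Nat.not_even_iff_odd.mpr hi)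
        | y k j => rfl
      rw [this, zero_mul, smul_zero])

theorem pi_gen (i : G) : pi (gen dg i) = wpi i := lift_gen _ _ _ _

open Classical in
/-- coefficient vectors of the odd generators -/
noncomputable def cv : G → (Fin 6 → R)
  | .e _ => 0
  | .u j => Pi.single j 1
  | .x => 0
  | .y k j => if h : ∃ c : Fin 6 → R, kap c = pi (Df (.y k j)) then h.choose else 0

/-- values on the generators -/
noncomputable def wT (i : G) : T := TrivSqZeroExt.inl (wpi i) + TrivSqZeroExt.inr (cv i)

theorem wT_fst (i : G) : (wT i).fst = wpi i := by simp [wT]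
theorem wT_snd (i : G) : (wT i).snd = cv i := by simp [wT]

theorem dg_cases (i : G) : (Even (dg i) ∧ cv i = 0) ∨ (Odd (dg i) ∧ wpi i = 0) := by
  cases i with
  | e t => left; exact ⟨⟨1, rfl⟩, rfl⟩
  | u j => right; exact ⟨⟨1, rfl⟩, rfl⟩
  | x => left; exact ⟨⟨2, rfl⟩, rfl⟩
  | y k j => right; exact ⟨⟨k + 2, by show 2 * k + 5 = _; ring⟩, rfl⟩

/-- the comparison map -/
noncomputable def phi : F dg →ₐ[ℚ] T :=
  lift dg wT (by
    intro i j
    rw [mul_comm (wT j) (wT i)]
    by_cases h : Even (dg i * dg j)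
    · rw [sgn_even h, one_smul]
    · have hi : Odd (dg i) := by
        rw [← Nat.not_even_iff_odd]; exact fun h' => h (h'.mul_right _)
      have hj : Odd (dg j) := by
        rw [← Nat.not_even_iff_odd]; exact fun h' => h (h'.mul_left _)
      have h1 : wpi i = 0 := by
        rcases dg_cases i with h | h
        · exact absurd h.1 (Nat.not_even_iff_odd.mpr hi)
        · exact h.2
      have h2 : wpi j = 0 := by
        rcases dg_cases j with h | h
        · exact absurd h.1 (Nat.not_even_iff_odd.mpr hj)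
        · exact h.2
      have : wT i * wT j = 0 := by
        simp [wT, h1, h2]
      rw [this, smul_zero])

theorem phi_gen (i : G) : phi (gen dg i) = wT i := lift_gen _ _ _ _

theorem phi_fst (a : F dg) : (phi a).fst = pi a := by
  have : (TrivSqZeroExt.fstHom ℚ R (Fin 6 → R)).comp phi = pi := by
    apply hom_ext
    intro i
    rw [AlgHom.comp_apply, phi_gen, pi_gen]
    exact wT_fst i
  exact DFunLike.congr_fun this a

/-- compatible pairs of degree `n` -/
def Q (n : ℕ) (t s : T) : Prop :=
  (Even n → t.snd = 0 ∧ s.fst = 0 ∧ s.snd - (pderiv 3 t.fst) • rho ∈ Bd) ∧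
    (Odd n → t.fst = 0 ∧ s.fst = kap t.snd)

theorem kap_zero : kap 0 = 0 := by simp [kap]
theorem kap_add (v w : Fin 6 → R) : kap (v + w) = kap v + kap w := by
  simp [kap, add_mul, Finset.sum_add_distrib]
theorem kap_smul (r : R) (w : Fin 6 → R) : kap (r • w) = r * kap w := by
  simp [kap, Finset.mul_sum, mul_assoc]

theorem Q_one : Q 0 1 0 := by
  refine ⟨fun _ => ⟨by simp, by simp, by simp⟩, fun h => absurd h (by decide)⟩

theorem Q_add {n : ℕ} {t s t' s' : T} (h : Q n t s) (h' : Q n t' s') : Q n (t + t') (s + s') := by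
  refine ⟨fun hn => ?_, fun hn => ?_⟩
  · obtain ⟨a1, a2, a3⟩ := h.1 hn
    obtain ⟨b1, b2, b3⟩ := h'.1 hn
    refine ⟨by simp [a1, b1], by simp [a2, b2], ?_⟩
    have e : (s + s').snd - (pderiv 3 (t + t').fst) • rho =
        (s.snd - (pderiv 3 t.fst) • rho) + (s'.snd - (pderiv 3 t'.fst) • rho) := by
      rw [TrivSqZeroExt.snd_add, TrivSqZeroExt.fst_add, map_add, add_smul]
      abel
    rw [e]
    exact add_mem a3 b3
  · obtain ⟨a1, a2⟩ := h.2 hn
    obtain ⟨b1, b2⟩ := h'.2 hn
    exact ⟨by simp [a1, b1], by simp [a2, b2, kap_add]⟩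

theorem Q_smul {n : ℕ} (r : ℚ) {t s : T} (h : Q n t s) : Q n (r • t) (r • s) := by
  refine ⟨fun hn => ?_, fun hn => ?_⟩
  · obtain ⟨a1, a2, a3⟩ := h.1 hn
    refine ⟨by simp [a1], by simp [a2], ?_⟩
    have e : (r • s).snd - (pderiv 3 (r • t).fst) • rho =
        (C r : R) • (s.snd - (pderiv 3 t.fst) • rho) := by
      rw [TrivSqZeroExt.snd_smul, TrivSqZeroExt.fst_smul, Derivation.map_smul]
      funext j
      simp [MvPolynomial.smul_eq_C_mul, mul_sub, mul_assoc]
    rw [e]
    exact Submodule.smul_mem _ _ a3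
  · obtain ⟨a1, a2⟩ := h.2 hn
    refine ⟨by simp [a1], ?_⟩
    rw [TrivSqZeroExt.fst_smul, a2, TrivSqZeroExt.snd_smul]
    simp [kap, Finset.smul_sum, smul_mul_assoc]

theorem Q_zero (n : ℕ) : Q n 0 0 := by
  refine ⟨fun _ => ⟨by simp, by simp, by simp⟩, fun _ => ⟨by simp, by simp [kap_zero]⟩⟩

theorem Q_mul {m n : ℕ} {t s t' s' : T} (h : Q m t s) (h' : Q n t' s') :
    Q (m + n) (t * t') (s * t' + (-1 : ℚ) ^ m • (t * s')) := by
  rcases Nat.even_or_odd m with hm | hm <;> rcases Nat.even_or_odd n with hn | hn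
  · obtain ⟨a1, a2, a3⟩ := h.1 hm
    obtain ⟨b1, b2, b3⟩ := h'.1 hn
    refine ⟨fun _ => ?_, fun ho => absurd (hm.add hn) (Nat.not_even_iff_odd.mpr ho)⟩
    rw [hm.neg_one_pow, one_smul]
    refine ⟨by simp [a1, b1], by simp [a2, b2], ?_⟩
    have e : (s * t' + t * s').snd - (pderiv 3 (t * t').fst) • rho =
        t'.fst • (s.snd - (pderiv 3 t.fst) • rho) + t.fst • (s'.snd - (pderiv 3 t'.fst) • rho) := by
      simp only [TrivSqZeroExt.snd_add, TrivSqZeroExt.snd_mul, TrivSqZeroExt.fst_mul, a1, b1, a2, b2,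
        smul_zero, zero_smul, Derivation.leibniz, smul_eq_mul, op_smul_eq_smul, zero_add, add_zero]
      rw [smul_sub, smul_sub, smul_smul, smul_smul, add_smul]
      abel
    rw [e]
    exact add_mem (Submodule.smul_mem _ _ a3) (Submodule.smul_mem _ _ b3)
  · obtain ⟨a1, a2, a3⟩ := h.1 hm
    obtain ⟨b1, b2⟩ := h'.2 hn
    refine ⟨fun ho => absurd (hm.add_odd hn) (Nat.not_odd_iff_even.mpr ho), fun _ => ?_⟩
    rw [hm.neg_one_pow, one_smul]
    refine ⟨by simp [b1], ?_⟩
    simp only [TrivSqZeroExt.fst_add, TrivSqZeroExt.fst_mul, TrivSqZeroExt.snd_mul, a1, b1, a2, b2,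
      zero_mul, zero_add, smul_zero, add_zero, kap_smul]
  · obtain ⟨a1, a2⟩ := h.2 hm
    obtain ⟨b1, b2, b3⟩ := h'.1 hn
    refine ⟨fun ho => absurd (hm.add_even hn) (Nat.not_odd_iff_even.mpr ho), fun _ => ?_⟩
    rw [hm.neg_one_pow]
    refine ⟨by simp [a1], ?_⟩
    simp only [TrivSqZeroExt.fst_add, TrivSqZeroExt.fst_mul, TrivSqZeroExt.snd_mul, a1, b1, a2, b2,
      zero_mul, mul_zero, zero_smul, smul_zero, add_zero, zero_add, TrivSqZeroExt.fst_smul,
      op_smul_eq_smul, kap_smul]
    rw [mul_comm]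
  · obtain ⟨a1, a2⟩ := h.2 hm
    obtain ⟨b1, b2⟩ := h'.2 hn
    refine ⟨fun _ => ?_, fun ho => absurd (hm.add_odd hn) (Nat.not_even_iff_odd.mpr ho)⟩
    rw [hm.neg_one_pow]
    refine ⟨by simp [a1, b1], by simp [a1, b1], ?_⟩
    have e : (s * t' + (-1 : ℚ) • (t * s')).snd - (pderiv 3 (t * t').fst) • rho =
        kap t.snd • t'.snd - kap t'.snd • t.snd := by
      simp only [TrivSqZeroExt.snd_add, TrivSqZeroExt.snd_mul, TrivSqZeroExt.fst_mul, a1, b1, a2, b2,
        smul_zero, zero_smul, zero_mul, map_zero, op_smul_eq_smul, add_zero, zero_add, sub_zero,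
        TrivSqZeroExt.snd_neg, neg_smul, one_smul]
      abel
    rw [e]
    exact H662R3.SA.taskK1 t.snd t'.snd

/-- a generator is good if its differential is compatible -/
def Good (i : G) : Prop := Q (dg i) (phi (gen dg i)) (phi (Df i))

theorem Q_mon (l : List G) (h : ∀ i ∈ l, Good i) :
    Q (wt dg l) (phi (mon dg l)) (phi (der dg Df (mon dg l))) := by
  induction l with
  | nil => 
    rw [mon_nil, der_one, map_one, map_zero]
    exact Q_one
  | cons i l ih =>
    have h1 := Q_mul (h i (by simp)) (ih fun j hj => h j (by simp [hj]))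
    rw [der_mon_cons, mon_cons, wt_cons, map_mul, map_add, map_mul, map_smul, map_mul]
    exact h1

theorem Q_gr (n : ℕ) (h : ∀ l, wt dg l = n → ∀ i ∈ l, Good i) {a : F dg} (ha : a ∈ gr dg n) :
    Q n (phi a) (phi (der dg Df a)) := by
  induction ha using Submodule.span_induction with
  | mem x hx =>
    obtain ⟨l, hl, rfl⟩ := hx
    have := Q_mon l (h l hl)
    rwa [hl] at this
  | zero => rw [map_zero, map_zero, map_zero]; exact Q_zero n
  | add y z _ _ hy hz => rw [map_add, map_add, map_add]; exact Q_add hy hz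
  | smul r y _ hy => rw [map_smul, map_smul, map_smul]; exact Q_smul r hy

theorem good_e (t : Fin 3) : Good (.e t) := by
  refine ⟨fun _ => ?_, fun h => absurd h (by show ¬ Odd 2; decide)⟩
  rw [phi_gen, Df_e, map_zero]
  refine ⟨by rw [wT_snd]; rfl, rfl, ?_⟩
  have h : pderiv 3 (wpi (.e t)) = 0 := by
    show pderiv 3 (X t.castSucc : R) = 0
    rw [pderiv_X_of_ne]
    fin_cases t <;> decide
  rw [wT_fst, h]
  simp

theorem kap_single (j : Fin 6) : kap (Pi.single j 1) = quad j := by
  unfold kap
  rw [Finset.sum_eq_single j]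
  · simp
  · intro i _ hi
    rw [Pi.single_eq_of_ne hi, zero_mul]
  · simp

theorem good_u (j : Fin 6) : Good (.u j) := by
  refine ⟨fun h => absurd h (by show ¬ Even 3; decide), fun _ => ?_⟩
  refine ⟨by rw [phi_gen, wT_fst]; rfl, ?_⟩
  rw [phi_fst, Df_u, map_mul, pi_gen, pi_gen, phi_gen, wT_snd]
  show (X (fp j).castSucc * X (fq j).castSucc : R) = kap (Pi.single j 1)
  rw [kap_single]
  rfl

theorem good_x : Good .x := by
  refine ⟨fun _ => ?_, fun h => absurd h (by show ¬ Odd 4; decide)⟩
  have hfst : (phi (Df .x)).fst = 0 := by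
    rw [phi_fst, Df_x, map_sub, map_add, map_smul, map_mul, map_mul, map_mul, pi_gen, pi_gen, pi_gen,
      pi_gen, pi_gen, pi_gen]
    simp [wpi]
  refine ⟨by rw [phi_gen, wT_snd]; rfl, hfst, ?_⟩
  have h1 : (pderiv 3 (phi (gen dg .x)).fst) = 1 := by
    rw [phi_gen, wT_fst]
    show pderiv 3 (X 3 : R) = 1
    exact pderiv_X_self 3
  have h2 : (phi (Df .x)).snd = rho := by
    rw [Df_x, map_sub, map_add, map_smul, map_mul, map_mul, map_mul, phi_gen, phi_gen, phi_gen,
      phi_gen, phi_gen, phi_gen]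
    simp only [TrivSqZeroExt.snd_sub, TrivSqZeroExt.snd_add, TrivSqZeroExt.snd_smul,
      TrivSqZeroExt.snd_mul, wT_fst, wT_snd]
    simp only [wpi, cv]
    funext j
    fin_cases j <;> simp [rho, MvPolynomial.smul_eq_C_mul]
    all_goals rfl
  rw [h1, h2, one_smul, sub_self]
  exact zero_mem _

theorem pi_gr {n : ℕ} {a : F dg} (ha : a ∈ gr dg n) : IsWeightedHomogeneous wts (pi a) n := by
  induction ha using Submodule.span_induction with
  | mem x hx =>
    obtain ⟨l, hl, rfl⟩ := hx
    subst hl
    induction l with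
    | nil => 
      rw [mon_nil, map_one]
      exact isWeightedHomogeneous_one ℚ wts
    | cons i l ih =>
      rw [mon_cons, map_mul, wt_cons]
      refine IsWeightedHomogeneous.mul ?_ ih
      rw [pi_gen]
      cases i with
      | e t =>
        have := isWeightedHomogeneous_X ℚ wts t.castSucc
        have e : wts t.castSucc = 2 := by fin_cases t <;> rfl
        rwa [e] at this
      | u j => exact isWeightedHomogeneous_zero ℚ wts _
      | x => exact isWeightedHomogeneous_X ℚ wts 3
      | y k j => exact isWeightedHomogeneous_zero ℚ wts _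
  | zero => rw [map_zero]; exact isWeightedHomogeneous_zero ℚ wts _
  | add y z _ _ hy hz => rw [map_add]; exact hy.add hz
  | smul r y _ hy =>
    rw [map_smul]
    exact (weightedHomogeneousSubmodule ℚ wts n).smul_mem r hy

theorem good_y (k j : ℕ) : Good (.y k j) := by
  induction k using Nat.strong_induction_on generalizing j with
  | _ k ih =>
    have hgood : ∀ l, wt dg l = 2 * k + 5 + 1 → ∀ i ∈ l, Good i := by
      intro l hl i hi
      cases i with
      | e t => exact good_e t
      | u j => exact good_u j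
      | x => exact good_x
      | y k' j' => exact ih k' (level k l hl k' j' hi) j'
    have hz : (Df (.y k j) : F dg) ∈ gr dg (2 * k + 5 + 1) := (Df (.y k j)).2
    have hQ := Q_gr (2 * k + 5 + 1) hgood hz
    rw [Df_y_coc, map_zero] at hQ
    have hev : Even (2 * k + 5 + 1) := ⟨k + 3, by ring⟩
    obtain ⟨-, -, h3⟩ := hQ.1 hev
    rw [TrivSqZeroExt.snd_zero, zero_sub, neg_mem_iff, phi_fst] at h3
    have hc := H662R3.SA.taskK2 _ (by omega) _ (pi_gr hz) h3
    refine ⟨fun h => absurd h (Nat.not_even_iff_odd.mpr ⟨k + 2, by show 2 * k + 5 = _; ring⟩), fun _ => ?_⟩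
    refine ⟨by rw [phi_gen, wT_fst]; rfl, ?_⟩
    rw [phi_fst, phi_gen, wT_snd]
    have : cv (.y k j) = hc.choose := dif_pos hc
    rw [this]
    exact hc.choose_spec.symm

theorem good (i : G) : Good i := by
  cases i with
  | e t => exact good_e t
  | u j => exact good_u j
  | x => exact good_x
  | y k j => exact good_y k j

/-- the map killing all generators but `x` -/
noncomputable def chi : F dg →ₐ[ℚ] Polynomial ℚ :=
  (aeval (![0, 0, 0, Polynomial.X] : Fin 4 → Polynomial ℚ)).comp pi

theorem ev_kap (c : Fin 6 → R) : aeval (![0, 0, 0, Polynomial.X] : Fin 4 → Polynomial ℚ) (kap c) = 0 := by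
  unfold kap
  rw [map_sum]
  apply Finset.sum_eq_zero
  intro j _
  rw [map_mul, quad, map_mul, aeval_X]
  have : (![0, 0, 0, Polynomial.X] : Fin 4 → Polynomial ℚ) (fp j).castSucc = 0 := by
    generalize fp j = t
    fin_cases t <;> rfl
  rw [this, zero_mul, mul_zero]

theorem chi_Df (i : G) : chi (Df i) = 0 := by
  show aeval _ (pi (Df i)) = 0
  have hg := good i
  rcases dg_cases i with h | h
  · have := (hg.1 h.1).2.1
    rw [phi_fst] at this
    rw [this, map_zero]
  · have := (hg.2 h.1).2
    rw [phi_fst] at this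
    rw [this]
    exact ev_kap _

theorem chi_der (a : F dg) : chi (der dg Df a) = 0 := by
  have hs := span_mon dg a
  induction hs using Submodule.span_induction with
  | mem x hx =>
    obtain ⟨l, rfl⟩ := hx
    induction l with
    | nil => rw [mon_nil, der_one, map_zero]
    | cons i l ih => rw [der_mon_cons, map_add, map_smul, map_mul, map_mul, ih, chi_Df]; simp
  | zero => simp
  | add y z _ _ hy hz => rw [map_add, map_add, hy, hz, add_zero]
  | smul r y _ hy => rw [map_smul, map_smul, hy, smul_zero]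

theorem chi_low (j : G) (h : dg j < 4) : chi (gen dg j) = 0 := by
  show aeval _ (pi (gen dg j)) = 0
  rw [pi_gen]
  cases j with
  | e t => 
    show aeval _ (X t.castSucc) = 0
    rw [aeval_X]
    fin_cases t <;> rfl
  | u j => exact map_zero _
  | x => exact absurd h (by show ¬ 4 < 4; decide)
  | y k j => exact map_zero _

theorem chi_x : chi (gen dg .x) = Polynomial.X := by
  show aeval _ (pi (gen dg .x)) = _
  rw [pi_gen]
  show aeval _ (X 3) = _
  rw [aeval_X]
  rfl

end H539R3.SA
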