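import Pool.Agent.H539R3.SA.Phi

/-! Selection of finitely many generators in each degree. -/

set_option autoImplicit false

namespace H539R3.SA

open MvPolynomial

section words
variable {I : Type} (deg : I → ℕ)

/-- span of the words of weight `n` with letters in `V` -/
noncomputable def ws (V : Set I) (n : ℕ) : Submodule ℚ (F deg) :=
  Submodule.span ℚ {z | ∃ l, wt deg l = n ∧ (∀ i ∈ l, i ∈ V) ∧ z = mon deg l}

theorem length_le (h2 : ∀ i, 2 ≤ deg i) (l : List I) : 2 * l.length ≤ wt deg l := by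
  induction l with
  | nil => simp
  | cons i l ih =>
    rw [wt_cons, List.length_cons]
    have := h2 i
    omega

theorem ws_fin (h2 : ∀ i, 2 ≤ deg i) (V : Set I) (hV : V.Finite) (n : ℕ) :
    FiniteDimensional ℚ (ws deg V n) := by
  have hf : Finite V := hV
  have h1 : {l : List I | wt deg l = n ∧ ∀ i ∈ l, i ∈ V}.Finite := by
    refine Set.Finite.subset ((List.finite_length_le V n).image (List.map Subtype.val)) ?_
    rintro l ⟨hl, hi⟩
    lift l to List V using hi
    refine ⟨l, ?_, rfl⟩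
    have := length_le deg h2 (l.map Subtype.val)
    rw [List.length_map] at this
    show l.length ≤ n
    omega
  have h3 : {z : F deg | ∃ l, wt deg l = n ∧ (∀ i ∈ l, i ∈ V) ∧ z = mon deg l}.Finite := by
    refine Set.Finite.subset (h1.image (mon deg)) ?_
    rintro _ ⟨l, hl, hi, rfl⟩
    exact ⟨l, ⟨hl, hi⟩, rfl⟩
  exact FiniteDimensional.span_of_finite ℚ h3

theorem ws_le_gr (V : Set I) (n : ℕ) : ws deg V n ≤ gr deg n := by
  refine Submodule.span_le.mpr ?_
  rintro _ ⟨l, hl, -, rfl⟩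
  exact Submodule.subset_span ⟨l, hl, rfl⟩

end words

theorem exists_pick (k : ℕ) (V : Set G) (hV : V.Finite) : ∃ P : Finset ℕ,
    (∀ j ∈ P, (Df (.y k j) : F dg) ∈ ws dg V (2 * k + 5 + 1)) ∧
    ∀ z ∈ ws dg V (2 * k + 5 + 1), der dg Df z = 0 →
      z ∈ Submodule.span ℚ {w : F dg | ∃ j ∈ P, w = Df (.y k j)} := by
  classical
  have hfin : FiniteDimensional ℚ (ws dg V (2 * k + 5 + 1)) := ws_fin dg two_le_dg V hV _
  set Z : Submodule ℚ (F dg) := ws dg V (2 * k + 5 + 1) ⊓ LinearMap.ker (der dg Df) with hZ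
  have hZfin : FiniteDimensional ℚ Z := Submodule.finiteDimensional_inf_left _ _
  obtain ⟨s, hs⟩ : Z.FG := Module.Finite.iff_fg.mp hZfin
  have hex : ∀ z : F dg, z ∈ Z → ∃ j, (Df (.y k j) : F dg) = z := fun z hz =>
    Df_surj k z (ws_le_gr dg V _ hz.1) hz.2
  choose! f hf using hex
  have hsZ : ∀ z ∈ s, z ∈ Z := fun z hz => by rw [← hs]; exact Submodule.subset_span hz
  refine ⟨s.image f, ?_, ?_⟩
  · intro j hj
    obtain ⟨z, hz, rfl⟩ := Finset.mem_image.mp hj
    rw [hf z (hsZ z hz)]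
    exact (hsZ z hz).1
  · intro z hz hd
    have hzZ : z ∈ Z := ⟨hz, hd⟩
    rw [← hs] at hzZ
    refine Submodule.span_mono ?_ hzZ
    intro w hw
    exact ⟨f w, Finset.mem_image_of_mem f hw, (hf w (hsZ w hw)).symm⟩

/-- selected indices -/
noncomputable def pick (k : ℕ) (V : {V : Set G // V.Finite}) : Finset ℕ :=
  (exists_pick k V.1 V.2).choose

theorem pick_mem (k : ℕ) (V : {V : Set G // V.Finite}) (j : ℕ) (hj : j ∈ pick k V) :
    (Df (.y k j) : F dg) ∈ ws dg V.1 (2 * k + 5 + 1) :=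
  (exists_pick k V.1 V.2).choose_spec.1 j hj

theorem pick_span (k : ℕ) (V : {V : Set G // V.Finite}) (z : F dg)
    (hz : z ∈ ws dg V.1 (2 * k + 5 + 1)) (hd : der dg Df z = 0) :
    z ∈ Submodule.span ℚ {w : F dg | ∃ j ∈ pick k V, w = Df (.y k j)} :=
  (exists_pick k V.1 V.2).choose_spec.2 z hz hd

/-- generators selected up to level `k` -/
noncomputable def Vs : ℕ → {V : Set G // V.Finite}
  | 0 => ⟨Set.range G.e ∪ Set.range G.u ∪ {G.x},
      ((Set.finite_range _).union (Set.finite_range _)).union (Set.finite_singleton _)⟩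
  | k + 1 => ⟨(Vs k).1 ∪ G.y k '' (pick k (Vs k) : Set ℕ),
      (Vs k).2.union ((pick k (Vs k)).finite_toSet.image _)⟩

theorem Vs_e (m : ℕ) (t : Fin 3) : G.e t ∈ (Vs m).1 := by
  induction m with
  | zero => left; left; exact ⟨t, rfl⟩
  | succ m ih => left; exact ih

theorem Vs_u (m : ℕ) (t : Fin 6) : G.u t ∈ (Vs m).1 := by
  induction m with
  | zero => left; right; exact ⟨t, rfl⟩
  | succ m ih => left; exact ih

theorem Vs_x (m : ℕ) : G.x ∈ (Vs m).1 := by
  induction m with
  | zero => right; rfl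
  | succ m ih => left; exact ih

theorem Vs_y (m k j : ℕ) : G.y k j ∈ (Vs m).1 ↔ k < m ∧ j ∈ pick k (Vs k) := by
  induction m with
  | zero =>
    constructor
    · rintro ((⟨t, ht⟩ | ⟨t, ht⟩) | h)
      · exact absurd ht (by simp)
      · exact absurd ht (by simp)
      · exact absurd h (by simp)
    · rintro ⟨h, -⟩; omega
  | succ m ih =>
    constructor
    · rintro (h | ⟨j', hj', h⟩)
      · obtain ⟨h1, h2⟩ := ih.mp h
        exact ⟨by omega, h2⟩
      · injection h with h1 h2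
        subst h1; subst h2
        exact ⟨by omega, hj'⟩
    · rintro ⟨h1, h2⟩
      by_cases hk : k = m
      · subst hk
        right
        exact ⟨j, h2, rfl⟩
      · left
        exact ih.mpr ⟨by omega, h2⟩

/-- the selected generators -/
def U : Set G := {i | ∃ m, i ∈ (Vs m).1}

theorem U_y (k j : ℕ) : G.y k j ∈ U ↔ j ∈ pick k (Vs k) := by
  constructor
  · rintro ⟨m, hm⟩
    exact ((Vs_y m k j).mp hm).2
  · intro h
    exact ⟨k + 1, (Vs_y _ k j).mpr ⟨by omega, h⟩⟩

/-- letters of words of weight `2k+6` in the selected generators are in `Vs k` -/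
theorem U_level (k : ℕ) (l : List G) (hl : wt dg l = 2 * k + 5 + 1) (hU : ∀ i ∈ l, i ∈ U) :
    ∀ i ∈ l, i ∈ (Vs k).1 := by
  intro i hi
  cases i with
  | e t => exact Vs_e k t
  | u t => exact Vs_u k t
  | x => exact Vs_x k
  | y k' j => exact (Vs_y k k' j).mpr ⟨level k l hl k' j hi, (U_y k' j).mp (hU _ hi)⟩

theorem ws_U (k : ℕ) : ws dg U (2 * k + 5 + 1) ≤ ws dg (Vs k).1 (2 * k + 5 + 1) := by
  refine Submodule.span_le.mpr ?_
  rintro _ ⟨l, hl, hU, rfl⟩
  exact Submodule.subset_span ⟨l, hl, U_level k l hl hU, rfl⟩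

theorem ws_mono {V V' : Set G} (h : V ⊆ V') (n : ℕ) : ws dg V n ≤ ws dg V' n := by
  refine Submodule.span_le.mpr ?_
  rintro _ ⟨l, hl, hU, rfl⟩
  exact Submodule.subset_span ⟨l, hl, fun i hi => h (hU i hi), rfl⟩

theorem Vs_sub (k : ℕ) : (Vs k).1 ⊆ U := fun _ hi => ⟨k, hi⟩

/-- the differential of a selected generator is a combination of selected words -/
theorem Df_ws (i : G) (hi : i ∈ U) : (Df i : F dg) ∈ ws dg U (dg i + 1) := by
  have two : ∀ (a b : G) (n : ℕ), dg a + dg b = n → a ∈ U → b ∈ U →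
      gen dg a * gen dg b ∈ ws dg U n := by
    intro a b n hn ha hb
    refine Submodule.subset_span ⟨[a, b], by rw [wt_cons, wt_cons, wt_nil, add_zero, hn], ?_, by simp⟩
    intro i hi
    simp only [List.mem_cons, List.not_mem_nil, or_false] at hi
    rcases hi with rfl | rfl
    · exact ha
    · exact hb
  have he : ∀ t, G.e t ∈ U := fun t => ⟨0, Vs_e 0 t⟩
  have hu : ∀ t, G.u t ∈ U := fun t => ⟨0, Vs_u 0 t⟩
  cases i with
  | e t => rw [Df_e]; exact zero_mem _
  | u j =>
    rw [Df_u]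
    exact two _ _ _ rfl (he _) (he _)
  | x =>
    rw [Df_x]
    exact sub_mem (add_mem (two _ _ _ rfl (he 0) (hu 4)) (two _ _ _ rfl (he 1) (hu 5)))
      (Submodule.smul_mem _ _ (two _ _ _ rfl (he 2) (hu 3)))
  | y k j => exact ws_mono (Vs_sub k) _ (pick_mem k (Vs k) j ((U_y k j).mp hi))

end H539R3.SA
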